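import Pool.Agent.Lib.MP_971c94_pr.Defs

/-!
# Resampling one coordinate, and the decoupling inequality
-/

open MeasureTheory Set Function
open scoped ENNReal unitInterval

namespace Pool.Agent.Lib.MP_971c94_pr

section Update

variable {ι : Type*} {X : ι → Type*} [∀ i, MeasurableSpace (X i)] (μ : ∀ i, Measure (X i))
  [∀ i, IsProbabilityMeasure (μ i)] [DecidableEq ι]

/-- Resampling one coordinate does not change the law. -/
theorem map_update (i : ι) :
    ((Measure.infinitePi μ).prod (μ i)).map (fun z => update z.1 i z.2) =
      Measure.infinitePi μ := by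
  refine Measure.eq_infinitePi μ fun s t ht => ?_
  rw [Measure.map_apply measurable_update' (.pi s.countable_toSet fun _ _ => ht _)]
  have h1 : (fun z : (∀ i, X i) × X i => update z.1 i z.2) ⁻¹' ((s : Set ι).pi t) =
      ((s.erase i : Finset ι) : Set ι).pi t ×ˢ (if i ∈ s then t i else univ) := by
    ext ⟨ω, c⟩
    simp only [mem_preimage, Set.mem_pi, Finset.mem_coe, mem_prod, Finset.mem_erase]
    constructor
    · intro h
      refine ⟨fun j hj => ?_, ?_⟩
      · have := h j hj.2
        rwa [update_of_ne hj.1] at this
      · split_ifs with hi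
        · have := h i hi
          rwa [update_self] at this
        · trivial
    · rintro ⟨h2, h3⟩ j hj
      by_cases hji : j = i
      · subst hji
        rw [if_pos hj] at h3
        rwa [update_self]
      · rw [update_of_ne hji]
        exact h2 j ⟨hji, hj⟩
  rw [h1, Measure.prod_prod, Measure.infinitePi_pi _ (fun j _ => ht j)]
  split_ifs with hi
  · rw [mul_comm, Finset.mul_prod_erase s (fun j => μ j (t j)) hi]
  · rw [measure_univ, mul_one, Finset.erase_eq_of_notMem hi]

theorem lintegral_update {f : (∀ i, X i) → ℝ≥0∞} (hf : Measurable f) (i : ι) :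
    ∫⁻ ω, f ω ∂(Measure.infinitePi μ) =
      ∫⁻ ω, ∫⁻ c, f (update ω i c) ∂(μ i) ∂(Measure.infinitePi μ) := by
  conv_lhs => rw [← map_update μ i]
  have hm : Measurable fun z : (∀ i, X i) × X i => f (update z.1 i z.2) :=
    hf.comp measurable_update'
  rw [lintegral_map hf measurable_update', lintegral_prod _ hm.aemeasurable]

theorem integral_update {f : (∀ i, X i) → ℝ} (hf : Measurable f) {M : ℝ}
    (hM : ∀ ω, |f ω| ≤ M) (i : ι) :
    ∫ ω, f ω ∂(Measure.infinitePi μ) =
      ∫ ω, ∫ c, f (update ω i c) ∂(μ i) ∂(Measure.infinitePi μ) := by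
  conv_lhs => rw [← map_update μ i]
  rw [integral_map measurable_update'.aemeasurable hf.aestronglyMeasurable, integral_prod]
  exact Integrable.of_bound (hf.comp measurable_update').aestronglyMeasurable M
    (ae_of_all _ fun z => by simpa using hM _)

end Update

instance (p : I) : IsProbabilityMeasure (carLaw p) := by
  constructor
  simp only [carLaw, Measure.coe_add, Measure.coe_smul, Pi.add_apply, Pi.smul_apply,
    measure_univ, smul_eq_mul, mul_one]
  rw [← ENNReal.ofReal_add p.2.1 (by linarith [p.2.2])]
  simp

section Site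

variable {D : Type*} [MeasurableSpace D] (δ : Measure D) [IsProbabilityMeasure δ]

theorem integral_carLaw (p : I) (f : Bool → ℝ) :
    ∫ b, f b ∂(carLaw p) = p * f true + (1 - p) * f false := by
  rw [carLaw, integral_add_measure, integral_smul_measure, integral_smul_measure,
    integral_dirac, integral_dirac, ENNReal.toReal_ofReal p.2.1,
    ENNReal.toReal_ofReal (by linarith [p.2.2])]
  · rfl
  · exact (Integrable.of_finite).smul_measure ENNReal.ofReal_ne_top
  · exact (Integrable.of_finite).smul_measure ENNReal.ofReal_ne_top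

theorem integral_car_prod (p : I) {f : Bool × D → ℝ} (hf : Measurable f) {M : ℝ}
    (hM : ∀ c, |f c| ≤ M) :
    ∫ c, f c ∂((carLaw p).prod δ) =
      p * ∫ d, f (true, d) ∂δ + (1 - p) * ∫ d, f (false, d) ∂δ := by
  rw [integral_prod, integral_carLaw]
  exact Integrable.of_bound hf.aestronglyMeasurable M (ae_of_all _ fun z => by simpa using hM _)

variable {ι : Type*} [DecidableEq ι]

/-- The class of functionals the decoupling inequality is for: `F` does not depend on the data
of a spot, and turning a spot into a car lowers `F` by at most two. -/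
structure Good (F : (ι → Bool × D) → ℝ) : Prop where
  meas : Measurable F
  bdd : ∃ M, ∀ ω, |F ω| ≤ M
  spot : ∀ ω i d d', F (update ω i (false, d)) = F (update ω i (false, d'))
  car_ge : ∀ ω i d e, F (update ω i (false, d)) - 2 ≤ F (update ω i (true, e))
  car_le : ∀ ω i d e, F (update ω i (true, e)) ≤ F (update ω i (false, d))

/-- Average over the coordinate `i`. -/
noncomputable def avg (ν : Measure (Bool × D)) (i : ι) (F : (ι → Bool × D) → ℝ)
    (ω : ι → Bool × D) : ℝ := ∫ c, F (update ω i c) ∂ν

variable {δ}

theorem Good.integrable_update {F : (ι → Bool × D) → ℝ} (hF : Good F) (ν : Measure (Bool × D))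
    [IsProbabilityMeasure ν] (ω : ι → Bool × D) (i : ι) :
    Integrable (fun c => F (update ω i c)) ν := by
  obtain ⟨M, hM⟩ := hF.bdd
  exact Integrable.of_bound (hF.meas.comp (measurable_update ω)).aestronglyMeasurable M
    (ae_of_all _ fun z => by simpa using hM _)

theorem Good.avg {F : (ι → Bool × D) → ℝ} (hF : Good F) (ν : Measure (Bool × D))
    [IsProbabilityMeasure ν] (i : ι) : Good (avg ν i F) where
  meas := (hF.meas.comp measurable_update').stronglyMeasurable.integral_prod_right'.measurable
  bdd := by
    obtain ⟨M, hM⟩ := hF.bdd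
    refine ⟨M, fun ω => ?_⟩
    have h := norm_integral_le_of_norm_le_const (μ := ν) (f := fun c => F (update ω i c)) (C := M)
      (ae_of_all _ fun z => by simpa using hM _)
    simpa [MP_971c94_pr.avg] using h
  spot := by
    intro ω j d d'
    by_cases hij : i = j
    · subst hij
      simp only [MP_971c94_pr.avg, update_idem]
    · simp only [MP_971c94_pr.avg]
      refine integral_congr_ae (ae_of_all _ fun c => ?_)
      simp only
      rw [update_comm (Ne.symm hij), update_comm (Ne.symm hij)]
      exact hF.spot _ _ _ _
  car_ge := by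
    intro ω j d e
    by_cases hij : i = j
    · subst hij
      simp only [MP_971c94_pr.avg, update_idem]
      linarith
    · simp only [MP_971c94_pr.avg]
      have h : ∫ c, (F (update (update ω j (false, d)) i c) - 2) ∂ν
          ≤ ∫ c, F (update (update ω j (true, e)) i c) ∂ν := by
        refine integral_mono ((hF.integrable_update ν _ i).sub (integrable_const _))
          (hF.integrable_update ν _ i) fun c => ?_
        simp only
        rw [update_comm (Ne.symm hij), update_comm (Ne.symm hij)]
        exact hF.car_ge _ _ _ _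
      rw [integral_sub (hF.integrable_update ν _ i) (integrable_const _)] at h
      simpa using h
  car_le := by
    intro ω j d e
    by_cases hij : i = j
    · subst hij
      simp only [MP_971c94_pr.avg, update_idem]
      exact le_rfl
    · simp only [MP_971c94_pr.avg]
      refine integral_mono (hF.integrable_update ν _ i) (hF.integrable_update ν _ i) fun c => ?_
      simp only
      rw [update_comm (Ne.symm hij), update_comm (Ne.symm hij)]
      exact hF.car_le _ _ _ _

theorem exp_sub_one_le {l a : ℝ} (hl : 0 ≤ l) (hl' : l ≤ 1 / 2) (ha : 0 ≤ a) (ha' : a ≤ 2) :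
    Real.exp (l * a) - 1 ≤ l * (1 + 2 * l) * a := by
  have h0 : 0 ≤ l * a := mul_nonneg hl ha
  have h1 : l * a ≤ 1 := by nlinarith
  have h2 := Real.abs_exp_sub_one_sub_id_le (x := l * a) (by rw [abs_of_nonneg h0]; exact h1)
  have h3 := (abs_le.mp h2).2
  have h4 : (l * a) ^ 2 ≤ 2 * l * (l * a) := by
    have : l * a ≤ 2 * l := by nlinarith
    nlinarith
  nlinarith

/-- The one-coordinate inequality. -/
theorem Good.one_coord {F : (ι → Bool × D) → ℝ} (hF : Good F) (δ : Measure D)
    [IsProbabilityMeasure δ] {p p0 : I} {l : ℝ}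
    (hl : 0 ≤ l) (hl' : l ≤ 1 / 2) (hp : (p : ℝ) * (1 + 2 * l) ≤ p0) (i : ι) (ω : ι → Bool × D) :
    ∫ c, Real.exp (-(l * F (update ω i c))) ∂((carLaw p).prod δ) ≤
      Real.exp (-(l * MP_971c94_pr.avg ((carLaw p0).prod δ) i F ω)) := by
  obtain ⟨M, hM⟩ := hF.bdd
  have hD : Nonempty D := (inferInstance : NeZero δ).out |> fun h => by
    by_contra hcon
    rw [not_nonempty_iff] at hcon
    exact h (Measure.eq_zero_of_isEmpty δ)
  obtain ⟨d0⟩ := hD
  set m := F (update ω i (false, d0)) with hm
  have hspot : ∀ d, F (update ω i (false, d)) = m := fun d => hF.spot _ _ _ _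
  have hFi : Measurable fun c => F (update ω i c) := hF.meas.comp (measurable_update ω)
  set a : D → ℝ := fun e => m - F (update ω i (true, e)) with ha
  have ha0 : ∀ e, 0 ≤ a e := fun e => by
    have := hF.car_le ω i d0 e
    simp only [ha]; linarith
  have ha2 : ∀ e, a e ≤ 2 := fun e => by
    have := hF.car_ge ω i d0 e
    simp only [ha]; linarith
  have hmeasa : Measurable a := measurable_const.sub (hFi.comp measurable_prodMk_left)
  have hinta : Integrable a δ := Integrable.of_bound hmeasa.aestronglyMeasurable 2
    (ae_of_all _ fun e => by rw [Real.norm_eq_abs, abs_of_nonneg (ha0 e)]; exact ha2 e)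
  have hintexp : Integrable (fun e => Real.exp (l * a e)) δ :=
    Integrable.of_bound (Real.measurable_exp.comp (hmeasa.const_mul l)).aestronglyMeasurable
      (Real.exp (l * 2)) (ae_of_all _ fun e => by
        rw [Real.norm_eq_abs, abs_of_pos (Real.exp_pos _)]
        exact Real.exp_le_exp.mpr (mul_le_mul_of_nonneg_left (ha2 e) hl))
  -- the left hand side
  have hlhs : ∫ c, Real.exp (-(l * F (update ω i c))) ∂((carLaw p).prod δ) =
      Real.exp (-(l * m)) * (1 + p * ∫ e, (Real.exp (l * a e) - 1) ∂δ) := by
    have hmexp : Measurable fun c => Real.exp (-(l * F (update ω i c))) :=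
      Real.measurable_exp.comp (hFi.const_mul l).neg
    rw [integral_car_prod (M := Real.exp (l * M)) δ p hmexp (fun c => by
        rw [abs_of_pos (Real.exp_pos _)]
        refine Real.exp_le_exp.mpr ?_
        have := neg_abs_le (F (update ω i c))
        have := hM (update ω i c)
        nlinarith)]
    have h1 : ∀ e, Real.exp (-(l * F (update ω i (true, e)))) =
        Real.exp (-(l * m)) * Real.exp (l * a e) := by
      intro e
      rw [← Real.exp_add]
      congr 1
      simp only [ha]; ring
    simp_rw [h1, hspot]
    rw [integral_const_mul, integral_sub hintexp (integrable_const _)]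
    simp only [integral_const, probReal_univ, smul_eq_mul, mul_one, one_mul]
    ring
  -- the average
  have havg : MP_971c94_pr.avg ((carLaw p0).prod δ) i F ω = m - p0 * ∫ e, a e ∂δ := by
    rw [MP_971c94_pr.avg, integral_car_prod (M := M) δ p0 hFi (fun c => hM _)]
    have h1 : ∀ e, F (update ω i (true, e)) = m - a e := by
      intro e
      simp only [ha]; ring
    simp_rw [h1, hspot]
    rw [integral_sub (integrable_const _) hinta]
    simp only [integral_const, probReal_univ, smul_eq_mul, one_mul]
    ring
  rw [hlhs, havg]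
  have h5 : (p : ℝ) * ∫ e, (Real.exp (l * a e) - 1) ∂δ ≤ l * (p0 * ∫ e, a e ∂δ) := by
    have h6 : ∫ e, (Real.exp (l * a e) - 1) ∂δ ≤ ∫ e, l * (1 + 2 * l) * a e ∂δ :=
      integral_mono (hintexp.sub (integrable_const _)) (hinta.const_mul _)
        fun e => exp_sub_one_le hl hl' (ha0 e) (ha2 e)
    rw [integral_const_mul] at h6
    have h7 : 0 ≤ ∫ e, a e ∂δ := integral_nonneg ha0
    have h8 := mul_le_mul_of_nonneg_left h6 p.2.1
    have h9 : (p : ℝ) * (l * (1 + 2 * l) * ∫ e, a e ∂δ) =
        l * ((p : ℝ) * (1 + 2 * l) * ∫ e, a e ∂δ) := by ring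
    rw [h9] at h8
    refine h8.trans (mul_le_mul_of_nonneg_left (mul_le_mul_of_nonneg_right hp h7) hl)
  calc Real.exp (-(l * m)) * (1 + p * ∫ e, (Real.exp (l * a e) - 1) ∂δ)
      ≤ Real.exp (-(l * m)) * Real.exp (l * (p0 * ∫ e, a e ∂δ)) := by
        refine mul_le_mul_of_nonneg_left ?_ (Real.exp_pos _).le
        have := Real.add_one_le_exp (l * (p0 * ∫ e, a e ∂δ))
        linarith
    _ = Real.exp (-(l * (m - p0 * ∫ e, a e ∂δ))) := by
        rw [← Real.exp_add]
        congr 1
        ring

/-- **Decoupling inequality.** -/
theorem decouple (δ : Measure D) [IsProbabilityMeasure δ] {p p0 : I} {l : ℝ}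
    (hl : 0 ≤ l) (hl' : l ≤ 1 / 2) (hp : (p : ℝ) * (1 + 2 * l) ≤ p0) (J : Finset ι) :
    ∀ F : (ι → Bool × D) → ℝ, Good F → DependsOn F (J : Set ι) →
    ∫ ω, Real.exp (-(l * F ω)) ∂(Measure.infinitePi fun _ : ι => (carLaw p).prod δ) ≤
      Real.exp (-(l * ∫ ω, F ω ∂(Measure.infinitePi fun _ : ι => (carLaw p0).prod δ))) := by
  induction J using Finset.induction_on with
  | empty =>
    intro F hF hdep
    have hD : Nonempty D := (inferInstance : NeZero δ).out |> fun h => by
      by_contra hcon
      rw [not_nonempty_iff] at hcon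
      exact h (Measure.eq_zero_of_isEmpty δ)
    obtain ⟨d0⟩ := hD
    have hconst : ∀ ω, F ω = F fun _ => (false, d0) := fun ω => hdep (by simp)
    rw [show (fun ω => Real.exp (-(l * F ω))) =
        fun _ => Real.exp (-(l * F fun _ => (false, d0))) from funext fun ω => by rw [hconst ω],
      show F = fun _ => F fun _ => (false, d0) from funext hconst]
    simp
  | insert i J hi ih =>
    intro F hF hdep
    set F' := MP_971c94_pr.avg ((carLaw p0).prod δ) i F with hF'
    have hGood' : Good F' := hF.avg _ i
    have hdep' : DependsOn F' (J : Set ι) := by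
      intro x y hxy
      simp only [hF', MP_971c94_pr.avg]
      refine integral_congr_ae (ae_of_all _ fun c => ?_)
      refine hdep fun j hj => ?_
      by_cases hji : j = i
      · subst hji; simp
      · rw [update_of_ne hji, update_of_ne hji]
        refine hxy j ?_
        rcases Finset.mem_insert.mp (Finset.mem_coe.mp hj) with h | h
        · exact absurd h hji
        · exact h
    obtain ⟨M, hM⟩ := hF.bdd
    have h1 := ih F' hGood' hdep'
    have hexpmeas : Measurable fun ω => Real.exp (-(l * F ω)) :=
      Real.measurable_exp.comp (hF.meas.const_mul l).neg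
    have hexpbd : ∀ ω, |Real.exp (-(l * F ω))| ≤ Real.exp (l * M) := fun ω => by
        rw [abs_of_pos (Real.exp_pos _)]
        refine Real.exp_le_exp.mpr ?_
        have := neg_abs_le (F ω)
        have := hM ω
        nlinarith
    obtain ⟨M', hM'⟩ := hGood'.bdd
    have h2 : ∫ ω, Real.exp (-(l * F ω)) ∂(Measure.infinitePi fun _ : ι => (carLaw p).prod δ) ≤
        ∫ ω, Real.exp (-(l * F' ω)) ∂(Measure.infinitePi fun _ : ι => (carLaw p).prod δ) := by
      rw [integral_update _ hexpmeas hexpbd i]
      refine integral_mono ?_ ?_ fun ω => hF.one_coord δ hl hl' hp i ω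
      · refine Integrable.of_bound (C := Real.exp (l * M)) ?_ (ae_of_all _ fun ω => ?_)
        · exact (hexpmeas.comp
            measurable_update').stronglyMeasurable.integral_prod_right'.aestronglyMeasurable
        · have h := norm_integral_le_of_norm_le_const (μ := (carLaw p).prod δ)
            (f := fun c => Real.exp (-(l * F (update ω i c)))) (C := Real.exp (l * M))
            (ae_of_all _ fun z => by simpa using hexpbd _)
          simpa using h
      · refine Integrable.of_bound (C := Real.exp (l * M')) ?_ (ae_of_all _ fun ω => ?_)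
        · exact (Real.measurable_exp.comp (hGood'.meas.const_mul l).neg).aestronglyMeasurable
        · rw [Real.norm_eq_abs, abs_of_pos (Real.exp_pos _)]
          refine Real.exp_le_exp.mpr ?_
          have := neg_abs_le (F' ω)
          have := hM' ω
          nlinarith
    have h3 : ∫ ω, F ω ∂(Measure.infinitePi fun _ : ι => (carLaw p0).prod δ) =
        ∫ ω, F' ω ∂(Measure.infinitePi fun _ : ι => (carLaw p0).prod δ) :=
      integral_update _ hF.meas hM i
    rw [h3]
    exact h2.trans h1

end Site

end Pool.Agent.Lib.MP_971c94_pr
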