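import Mathlib

/-!
# Parking process on a transitive unimodular graph: definitions

Everything the hand-in `Pool.Agent.Results.MP_971c94_pr.FiniteMean` uses.
-/

open MeasureTheory Set
open scoped ENNReal unitInterval

namespace Pool.Agent.Lib.MP_971c94_pr

/-! ### Triples `(G, K, Γ)` -/

section Triples

variable {V : Type*}

/-- The group `Aut_K(G)` of graph automorphisms `φ` with `K (φ u) (φ v) = K u v`. -/
def autK (G : SimpleGraph V) (K : V → PMF V) : Subgroup (G ≃g G) where
  carrier := {φ | ∀ u v, K (φ u) (φ v) = K u v}
  mul_mem' := by
    intro a b ha hb u v
    rw [RelIso.mul_apply, RelIso.mul_apply, ha, hb]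
  one_mem' := by
    intro u v
    rfl
  inv_mem' := by
    intro a ha u v
    have h := ha (a⁻¹ u) (a⁻¹ v)
    rw [RelIso.apply_inv_self, RelIso.apply_inv_self] at h
    exact h.symm

/-- `u` is accessible from `v`: there are adjacent vertices `v = x₀, x₁, …, xₙ = u` with
`K(xᵢ, xᵢ₊₁) > 0` for all `i < n`. -/
def Accessible (G : SimpleGraph V) (K : V → PMF V) (u v : V) : Prop :=
  Relation.ReflTransGen (fun a b => G.Adj a b ∧ 0 < K a b) v u

/-- The orbit `Γ(u,u) v` of `v` under the stabiliser of `u` in `Γ`. -/
def stabOrbit {G : SimpleGraph V} (Γ : Subgroup (G ≃g G)) (u v : V) : Set V :=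
  {w | ∃ φ ∈ Γ, φ u = u ∧ φ v = w}

/-- The standing hypotheses: `G` is infinite, locally finite and connected, `K` is a kernel
supported on its edges (`K u` is a probability mass function for every `u`), `Γ ≤ Aut_K(G)`, and
the triple `(G, K, Γ)` is transitive, unimodular and infinitely accessible. -/
structure IsTriple (G : SimpleGraph V) (K : V → PMF V) (Γ : Subgroup (G ≃g G)) : Prop where
  infinite : Infinite V
  locallyFinite : ∀ v, (G.neighborSet v).Finite
  connected : G.Connected
  supported : ∀ u v, ¬ G.Adj u v → K u v = 0
  le_autK : Γ ≤ autK G K
  transitive : ∀ u v, ∃ φ ∈ Γ, φ u = v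
  unimodular : ∀ u v, (stabOrbit Γ u v).Finite ∧ (stabOrbit Γ v u).Finite ∧
    (stabOrbit Γ u v).ncard = (stabOrbit Γ v u).ncard
  infinitelyAccessible : ∃ φ ∈ Γ, ∃ u : V,
    (Set.range fun n : ℕ => (φ ^ n) u).Infinite ∧ Accessible G K u (φ u)

end Triples

/-! ### The process -/

section Process

variable {V : Type*}

/-- The randomness attached to a vertex `x`: whether `x` initially holds a car, the instructions
`ζ (n, v)` of that car (if it is at `v` after `n` steps it next moves to `ζ (n, v)`), and its
priorities `r n` used to break ties at time `n + 1`. -/
abbrev Site (V : Type*) := Bool × ((ℕ × V → V) × (ℕ → I))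

/-- The position at time `n` of the walk of the car that starts at `x`. -/
def pos (ω : V → Site V) (x : V) : ℕ → V
  | 0 => x
  | n + 1 => (ω x).2.1 (n, pos ω x n)

/-- The state of the process: the (starting points of the) cars that are still unparked,
and the parking spots that are still free. -/
@[ext] structure State (V : Type*) where
  cars : Set V
  spots : Set V

/-- One time step. The car started at `x` moves to `q x`; if that is a free spot then the car with
the smallest priority among all unparked cars that reach it parks
(`beats x y` says that `x` has smaller priority than `y`), and the spot is no longer free. -/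
def State.step (q : V → V) (beats : V → V → Prop) (s : State V) : State V where
  cars := {x | x ∈ s.cars ∧ ¬ (q x ∈ s.spots ∧ ∀ y ∈ s.cars, q y = q x → y ≠ x → beats x y)}
  spots := {v | v ∈ s.spots ∧ ∀ x ∈ s.cars, q x ≠ v}

/-- The evolution from the initial state `s` with positions `q n x` at time `n + 1` and
priority comparisons `beats n` at time `n + 1`. -/
def evo (q : ℕ → V → V) (beats : ℕ → V → V → Prop) (s : State V) : ℕ → State V
  | 0 => s
  | n + 1 => (evo q beats s n).step (q n) (beats n)

/-- The initial state: a vertex either holds a car or is a free spot. -/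
def initial (ω : V → Site V) : State V where
  cars := {x | (ω x).1 = true}
  spots := {x | (ω x).1 = false}

/-- The state of the parking process at time `n`. -/
def state (ω : V → Site V) : ℕ → State V :=
  evo (fun n x => pos ω x (n + 1)) (fun n x y => (ω x).2.2 n < (ω y).2.2 n) (initial ω)

/-- The car started at `x` visits `v` at time `n + 1`: it is unparked at time `n` and moves to
`v` at time `n + 1`. -/
def Arrives (ω : V → Site V) (n : ℕ) (x v : V) : Prop :=
  x ∈ (state ω n).cars ∧ pos ω x (n + 1) = v

open Classical in
/-- The number of visits to `v` at times `1, 2, …`. -/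
noncomputable def visits (v : V) (ω : V → Site V) : ℝ≥0∞ :=
  ∑' n : ℕ, ∑' x : V, if Arrives ω n x v then 1 else 0

end Process

/-! ### The law -/

section Law

variable {V : Type*} [MeasurableSpace V]

/-- The law of the indicator of a car. -/
noncomputable def carLaw (p : I) : Measure Bool :=
  ENNReal.ofReal p • Measure.dirac true + ENNReal.ofReal (1 - p) • Measure.dirac false

/-- The law of the instructions: independent, `ζ (n, v)` has law `K v`. -/
noncomputable def walkLaw (K : V → PMF V) : Measure (ℕ × V → V) :=
  Measure.infinitePi fun i : ℕ × V => (K i.2).toMeasure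

/-- The law of the randomness attached to one vertex: the indicator of a car, the instructions
and the i.i.d. uniform priorities are independent. -/
noncomputable def siteLaw (K : V → PMF V) (p : I) : Measure (Site V) :=
  (carLaw p).prod ((walkLaw K).prod (Measure.infinitePi fun _ : ℕ => (volume : Measure I)))

/-- The law of the whole input at density `p`: independent and identically distributed over
the vertices. -/
noncomputable def law (K : V → PMF V) (p : I) : Measure (V → Site V) :=
  Measure.infinitePi fun _ : V => siteLaw K p

end Law

end Pool.Agent.Lib.MP_971c94_pr
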