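import Pool.Agent.Lib.MP_971c94_pr.Defs

/-!
# Deterministic facts about the evolution
-/

open MeasureTheory Set
open scoped ENNReal unitInterval

namespace Pool.Agent.Lib.MP_971c94_pr

variable {V : Type*}

/-- The evolution depends only on the data of the cars that are present. -/
theorem step_congr {q q' : V → V} {b b' : V → V → Prop} {s : State V}
    (hq : ∀ x ∈ s.cars, q x = q' x)
    (hb : ∀ x ∈ s.cars, ∀ y ∈ s.cars, y ≠ x → (b x y ↔ b' x y)) :
    s.step q b = s.step q' b' := by
  ext v
  · simp only [State.step, mem_ofPred_eq]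
    constructor
    · rintro ⟨hv, h⟩
      refine ⟨hv, fun ⟨h1, h2⟩ => h ⟨?_, ?_⟩⟩
      · rw [hq v hv]; exact h1
      · intro y hy hyv hne
        rw [hb v hv y hy hne]
        exact h2 y hy (by rw [← hq v hv, ← hq y hy, hyv]) hne
    · rintro ⟨hv, h⟩
      refine ⟨hv, fun ⟨h1, h2⟩ => h ⟨?_, ?_⟩⟩
      · rw [← hq v hv]; exact h1
      · intro y hy hyv hne
        rw [← hb v hv y hy hne]
        exact h2 y hy (by rw [hq v hv, hq y hy, hyv]) hne
  · simp only [State.step, mem_ofPred_eq]
    constructor
    · rintro ⟨hv, h⟩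
      exact ⟨hv, fun x hx => by rw [← hq x hx]; exact h x hx⟩
    · rintro ⟨hv, h⟩
      exact ⟨hv, fun x hx => by rw [hq x hx]; exact h x hx⟩

theorem step_cars_subset (q : V → V) (b : V → V → Prop) (s : State V) :
    (s.step q b).cars ⊆ s.cars := fun _ h => h.1

theorem step_spots_subset (q : V → V) (b : V → V → Prop) (s : State V) :
    (s.step q b).spots ⊆ s.spots := fun _ h => h.1

theorem evo_cars_succ_subset (q : ℕ → V → V) (b : ℕ → V → V → Prop) (s : State V) (n : ℕ) :
    (evo q b s (n + 1)).cars ⊆ (evo q b s n).cars := step_cars_subset _ _ _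

theorem evo_spots_succ_subset (q : ℕ → V → V) (b : ℕ → V → V → Prop) (s : State V) (n : ℕ) :
    (evo q b s (n + 1)).spots ⊆ (evo q b s n).spots := step_spots_subset _ _ _

theorem evo_cars_anti (q : ℕ → V → V) (b : ℕ → V → V → Prop) (s : State V) {m n : ℕ}
    (h : m ≤ n) : (evo q b s n).cars ⊆ (evo q b s m).cars := by
  induction n, h using Nat.le_induction with
  | base => exact subset_rfl
  | succ n _ ih => exact (evo_cars_succ_subset q b s n).trans ih

theorem evo_spots_anti (q : ℕ → V → V) (b : ℕ → V → V → Prop) (s : State V) {m n : ℕ}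
    (h : m ≤ n) : (evo q b s n).spots ⊆ (evo q b s m).spots := by
  induction n, h using Nat.le_induction with
  | base => exact subset_rfl
  | succ n _ ih => exact (evo_spots_succ_subset q b s n).trans ih

theorem evo_congr {q q' : ℕ → V → V} {b b' : ℕ → V → V → Prop} {s : State V}
    (hq : ∀ n, ∀ x ∈ s.cars, q n x = q' n x)
    (hb : ∀ n, ∀ x ∈ s.cars, ∀ y ∈ s.cars, y ≠ x → (b n x y ↔ b' n x y)) (n : ℕ) :
    evo q b s n = evo q' b' s n := by
  induction n with
  | zero => rfl
  | succ n ih =>
    have hsub : (evo q' b' s n).cars ⊆ s.cars := evo_cars_anti q' b' s (Nat.zero_le n)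
    simp only [evo]
    rw [ih]
    exact step_congr (fun x hx => hq n x (hsub hx))
      (fun x hx y hy hne => hb n x (hsub hx) y (hsub hy) hne)

/-- `s'` has exactly one more car or exactly one fewer free spot than `s`. -/
def Disc (s s' : State V) : Prop :=
  (∃ c, c ∉ s.cars ∧ s' = ⟨insert c s.cars, s.spots⟩) ∨
  (∃ v, v ∈ s.spots ∧ s' = ⟨s.cars, s.spots \ {v}⟩)

/-- The priority comparison is a strict total order. -/
structure Total (b : V → V → Prop) : Prop where
  irrefl : ∀ x, ¬ b x x
  trans : ∀ x y z, b x y → b y z → b x z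
  total : ∀ x y, x ≠ y → b x y ∨ b y x

/-- A finite nonempty set of cars has a winner. -/
theorem Total.exists_winner {b : V → V → Prop} (hb : Total b) {A : Set V} (hA : A.Finite)
    (hne : A.Nonempty) : ∃ x ∈ A, ∀ y ∈ A, y ≠ x → b x y := by
  induction A, hA using Set.Finite.induction_on with
  | empty => exact absurd hne (by simp)
  | @insert a A ha hA ih =>
    rcases A.eq_empty_or_nonempty with rfl | hA'
    · exact ⟨a, by simp, by simp⟩
    · obtain ⟨x, hx, hmin⟩ := ih hA'
      have hxa : x ≠ a := fun h => ha (h ▸ hx)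
      rcases hb.total x a hxa with h | h
      · refine ⟨x, Or.inr hx, ?_⟩
        rintro y (rfl | hy) hyx
        · exact h
        · exact hmin y hy hyx
      · refine ⟨a, Or.inl rfl, ?_⟩
        rintro y (rfl | hy) hyx
        · exact absurd rfl hyx
        · by_cases hyx' : y = x
          · exact hyx' ▸ h
          · exact hb.trans _ _ _ h (hmin y hy hyx')

/-- One step preserves the discrepancy relation. -/
theorem Disc.step {q : V → V} {b : V → V → Prop} (hb : Total b)
    {s s' : State V} (hfin : ∀ v, {x | x ∈ s.cars ∧ q x = v}.Finite) (h : Disc s s') :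
    Disc (s.step q b) (s'.step q b) := by
  rcases h with ⟨c, hc, rfl⟩ | ⟨v, hv, rfl⟩
  · -- one more car `c`
    by_cases hqc : q c ∈ s.spots
    · by_cases hempty : ∃ x ∈ s.cars, q x = q c
      · -- somebody arrives at `q c` in `s`: let `d` be the winner
        obtain ⟨d, ⟨hd, hqd⟩, hdwin⟩ := hb.exists_winner (hfin (q c)) hempty
        have hdc : d ≠ c := fun h => hc (h ▸ hd)
        left
        rcases hb.total d c hdc with hlt | hlt
        · -- `d` still wins, `c` stays unparked
          refine ⟨c, fun h => hc h.1, ?_⟩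
          ext x
          · simp only [State.step, mem_ofPred_eq, mem_insert_iff]
            constructor
            · rintro ⟨rfl | hx, h⟩
              · left; rfl
              · right
                refine ⟨hx, fun ⟨h1, h2⟩ => h ⟨h1, ?_⟩⟩
                rintro y (rfl | hy) hyx hne
                · -- `x` beats everybody in `s`, arrives at `q c`, so `x = d`
                  by_cases hxd : x = d
                  · exact hxd ▸ hlt
                  · exact hb.trans _ _ _ (h2 d hd (by rw [hqd, hyx]) (Ne.symm hxd)) hlt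
                · exact h2 y hy hyx hne
            · rintro (rfl | ⟨hx, h⟩)
              · refine ⟨Or.inl rfl, fun ⟨_, h2⟩ => ?_⟩
                exact hb.irrefl d (hb.trans _ _ _ hlt (h2 d (Or.inr hd) hqd hdc))
              · exact ⟨Or.inr hx, fun ⟨h1, h2⟩ =>
                  h ⟨h1, fun y hy hyx hne => h2 y (Or.inr hy) hyx hne⟩⟩
          · simp only [State.step, mem_ofPred_eq, mem_insert_iff]
            constructor
            · rintro ⟨hx, h⟩
              exact ⟨hx, fun y hy => h y (Or.inr hy)⟩
            · rintro ⟨hx, h⟩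
              refine ⟨hx, ?_⟩
              rintro y (rfl | hy)
              · rw [← hqd]; exact h d hd
              · exact h y hy
        · -- `c` wins, `d` stays unparked
          refine ⟨d, fun h => h.2 ⟨hqd ▸ hqc, fun y hy hyd hne => hdwin y ⟨hy, by rw [hyd, hqd]⟩ hne⟩,
            ?_⟩
          ext x
          · simp only [State.step, mem_ofPred_eq, mem_insert_iff]
            constructor
            · rintro ⟨rfl | hx, h⟩
              · exfalso
                apply h
                refine ⟨hqc, ?_⟩
                rintro y (rfl | hy) hyx hne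
                · exact absurd rfl hne
                · by_cases hyd : y = d
                  · exact hyd ▸ hlt
                  · exact hb.trans _ _ _ hlt (hdwin y ⟨hy, hyx⟩ hyd)
              · by_cases hxd : x = d
                · left; exact hxd
                · right
                  refine ⟨hx, fun ⟨h1, h2⟩ => h ⟨h1, ?_⟩⟩
                  rintro y (rfl | hy) hyx hne
                  · exfalso
                    have h3 := h2 d hd (by rw [hqd, hyx]) (Ne.symm hxd)
                    have h4 := hdwin x ⟨hx, hyx.symm⟩ hxd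
                    exact hb.irrefl _ (hb.trans _ _ _ h3 h4)
                  · exact h2 y hy hyx hne
            · rintro (rfl | ⟨hx, h⟩)
              · refine ⟨Or.inr hd, fun ⟨_, h2⟩ => ?_⟩
                exact hb.irrefl c (hb.trans _ _ _ hlt (h2 c (Or.inl rfl) hqd.symm hdc.symm))
              · exact ⟨Or.inr hx, fun ⟨h1, h2⟩ =>
                  h ⟨h1, fun y hy hyx hne => h2 y (Or.inr hy) hyx hne⟩⟩
          · simp only [State.step, mem_ofPred_eq, mem_insert_iff]
            constructor
            · rintro ⟨hx, h⟩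
              exact ⟨hx, fun y hy => h y (Or.inr hy)⟩
            · rintro ⟨hx, h⟩
              refine ⟨hx, ?_⟩
              rintro y (rfl | hy)
              · rw [← hqd]; exact h d hd
              · exact h y hy
      · -- nobody arrives at `q c` in `s`: `c` parks
        push Not at hempty
        right
        refine ⟨q c, ⟨hqc, hempty⟩, ?_⟩
        ext x
        · simp only [State.step, mem_ofPred_eq, mem_insert_iff]
          constructor
          · rintro ⟨rfl | hx, h⟩
            · exfalso
              apply h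
              refine ⟨hqc, ?_⟩
              rintro y (rfl | hy) hyx hne
              · exact absurd rfl hne
              · exact absurd hyx (hempty y hy)
            · refine ⟨hx, fun ⟨h1, h2⟩ => h ⟨h1, ?_⟩⟩
              rintro y (rfl | hy) hyx hne
              · exact absurd hyx.symm (hempty x hx)
              · exact h2 y hy hyx hne
          · rintro ⟨hx, h⟩
            exact ⟨Or.inr hx, fun ⟨h1, h2⟩ =>
                h ⟨h1, fun y hy hyx hne => h2 y (Or.inr hy) hyx hne⟩⟩
        · simp only [State.step, mem_ofPred_eq, mem_insert_iff, mem_sdiff, mem_singleton_iff]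
          constructor
          · rintro ⟨hx, h⟩
            exact ⟨⟨hx, fun y hy => h y (Or.inr hy)⟩, fun h' => h c (Or.inl rfl) h'.symm⟩
          · rintro ⟨⟨hx, h⟩, h'⟩
            refine ⟨hx, ?_⟩
            rintro y (rfl | hy)
            · exact fun h'' => h' h''.symm
            · exact h y hy
    · -- `q c` is not a free spot
      left
      refine ⟨c, fun h => hc h.1, ?_⟩
      ext x
      · simp only [State.step, mem_ofPred_eq, mem_insert_iff]
        constructor
        · rintro ⟨rfl | hx, h⟩
          · left; rfl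
          · right
            refine ⟨hx, fun ⟨h1, h2⟩ => h ⟨h1, ?_⟩⟩
            rintro y (rfl | hy) hyx hne
            · exact absurd (hyx ▸ h1) hqc
            · exact h2 y hy hyx hne
        · rintro (rfl | ⟨hx, h⟩)
          · exact ⟨Or.inl rfl, fun ⟨h1, _⟩ => hqc h1⟩
          · exact ⟨Or.inr hx, fun ⟨h1, h2⟩ =>
              h ⟨h1, fun y hy hyx hne => h2 y (Or.inr hy) hyx hne⟩⟩
      · simp only [State.step, mem_ofPred_eq, mem_insert_iff]
        constructor
        · rintro ⟨hx, h⟩
          exact ⟨hx, fun y hy => h y (Or.inr hy)⟩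
        · rintro ⟨hx, h⟩
          refine ⟨hx, ?_⟩
          rintro y (rfl | hy)
          · rintro rfl; exact hqc hx
          · exact h y hy
  · -- one fewer free spot `v`
    by_cases hempty : ∃ x ∈ s.cars, q x = v
    · obtain ⟨d, ⟨hd, hqd⟩, hdwin⟩ := hb.exists_winner (hfin v) hempty
      left
      refine ⟨d, fun h => h.2 ⟨hqd ▸ hv, fun y hy hyd hne => hdwin y ⟨hy, by rw [hyd, hqd]⟩ hne⟩,
            ?_⟩
      ext x
      · simp only [State.step, mem_ofPred_eq, mem_insert_iff, mem_sdiff, mem_singleton_iff]
        constructor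
        · rintro ⟨hx, h⟩
          by_cases hxd : x = d
          · left; exact hxd
          · right
            refine ⟨hx, fun ⟨h1, h2⟩ => h ⟨⟨h1, ?_⟩, h2⟩⟩
            intro hqx
            have h3 := h2 d hd (by rw [hqd, hqx]) (Ne.symm hxd)
            have h4 := hdwin x ⟨hx, hqx⟩ hxd
            exact hb.irrefl _ (hb.trans _ _ _ h3 h4)
        · rintro (rfl | ⟨hx, h⟩)
          · exact ⟨hd, fun ⟨⟨_, h2⟩, _⟩ => h2 hqd⟩
          · exact ⟨hx, fun ⟨⟨h1, _⟩, h2⟩ => h ⟨h1, h2⟩⟩
      · simp only [State.step, mem_ofPred_eq, mem_sdiff, mem_singleton_iff]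
        constructor
        · rintro ⟨⟨hx, _⟩, h⟩
          exact ⟨hx, h⟩
        · rintro ⟨hx, h⟩
          exact ⟨⟨hx, fun h' => h d hd (by rw [hqd, h'])⟩, h⟩
    · push Not at hempty
      right
      refine ⟨v, ⟨hv, hempty⟩, ?_⟩
      ext x
      · simp only [State.step, mem_ofPred_eq, mem_sdiff, mem_singleton_iff]
        constructor
        · rintro ⟨hx, h⟩
          exact ⟨hx, fun ⟨h1, h2⟩ => h ⟨⟨h1, hempty x hx⟩, h2⟩⟩
        · rintro ⟨hx, h⟩
          exact ⟨hx, fun ⟨⟨h1, _⟩, h2⟩ => h ⟨h1, h2⟩⟩
      · simp only [State.step, mem_ofPred_eq, mem_sdiff, mem_singleton_iff]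
        constructor
        · rintro ⟨⟨hx, h1⟩, h⟩
          exact ⟨⟨hx, h⟩, h1⟩
        · rintro ⟨⟨hx, h⟩, h1⟩
          exact ⟨⟨hx, h1⟩, h⟩

theorem Disc.evo {q : ℕ → V → V} {b : ℕ → V → V → Prop} (hb : ∀ n, Total (b n))
    (hfin : ∀ n v, {x | q n x = v}.Finite) {s s' : State V} (h : Disc s s') (n : ℕ) :
    Disc (evo q b s n) (evo q b s' n) := by
  induction n with
  | zero => exact h
  | succ n ih => exact ih.step (hb n) (fun v => (hfin n v).subset fun x hx => hx.2)

theorem Disc.spots_subset {s s' : State V} (h : Disc s s') : s'.spots ⊆ s.spots := by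
  rcases h with ⟨c, hc, rfl⟩ | ⟨v, hv, rfl⟩
  · exact subset_rfl
  · exact sdiff_subset

open Classical in
theorem Disc.card_le {s s' : State V} (h : Disc s s') (S : Finset V) :
    (S.filter (· ∈ s'.spots)).card ≤ (S.filter (· ∈ s.spots)).card ∧
    (S.filter (· ∈ s.spots)).card ≤ (S.filter (· ∈ s'.spots)).card + 1 := by
  refine ⟨Finset.card_le_card fun x hx => ?_, ?_⟩
  · rw [Finset.mem_filter] at hx ⊢
    exact ⟨hx.1, h.spots_subset hx.2⟩
  · rcases h with ⟨c, hc, rfl⟩ | ⟨v, hv, rfl⟩
    · simp
    · have : S.filter (· ∈ s.spots) ⊆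
          insert v (S.filter (· ∈ (⟨s.cars, s.spots \ {v}⟩ : State V).spots)) := by
        intro x hx
        rw [Finset.mem_filter] at hx
        rw [Finset.mem_insert, Finset.mem_filter]
        by_cases hxv : x = v
        · left; exact hxv
        · right; exact ⟨hx.1, hx.2, hxv⟩
      have h3 := Finset.card_insert_le v (S.filter (· ∈ (⟨s.cars, s.spots \ {v}⟩ : State V).spots))
      exact (Finset.card_le_card this).trans (h3.trans (le_of_eq (by congr)))

/-- As long as an added car `c` is unparked, it changes nothing else. -/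
theorem step_insert {q : V → V} {b : V → V → Prop} (hb : Total b) {s : State V} {c : V}
    (hc : c ∉ s.cars) (h : c ∈ (State.step q b ⟨insert c s.cars, s.spots⟩).cars) :
    State.step q b ⟨insert c s.cars, s.spots⟩
      = ⟨insert c (s.step q b).cars, (s.step q b).spots⟩ ∧ q c ∉ (s.step q b).spots := by
  have key : q c ∉ s.spots ∨ ∃ y ∈ s.cars, q y = q c ∧ b y c := by
    by_contra hcon
    push Not at hcon
    obtain ⟨h1, h2⟩ := hcon
    apply h.2
    refine ⟨h1, ?_⟩
    rintro y (rfl | hy) hyc hne
    · exact absurd rfl hne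
    · rcases hb.total y c hne with h3 | h3
      · exact absurd h3 (h2 y hy hyc)
      · exact h3
  refine ⟨?_, ?_⟩
  · ext x
    · simp only [State.step, mem_ofPred_eq, mem_insert_iff]
      constructor
      · rintro ⟨rfl | hx, h'⟩
        · left; rfl
        · right
          refine ⟨hx, fun ⟨h1, h2⟩ => h' ⟨h1, ?_⟩⟩
          rintro z (rfl | hz) hzx hne
          · rcases key with hk | ⟨y, hy, hyc, hyb⟩
            · exact absurd (hzx ▸ h1) hk
            · by_cases hxy : y = x
              · exact hxy ▸ hyb
              · exact hb.trans _ _ _ (h2 y hy (by rw [hyc, hzx]) hxy) hyb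
          · exact h2 z hz hzx hne
      · rintro (rfl | ⟨hx, h'⟩)
        · exact ⟨Or.inl rfl, h.2⟩
        · exact ⟨Or.inr hx, fun ⟨h1, h2⟩ =>
              h' ⟨h1, fun y hy hyx hne => h2 y (Or.inr hy) hyx hne⟩⟩
    · simp only [State.step, mem_ofPred_eq, mem_insert_iff]
      constructor
      · rintro ⟨hx, h'⟩
        exact ⟨hx, fun y hy => h' y (Or.inr hy)⟩
      · rintro ⟨hx, h'⟩
        refine ⟨hx, ?_⟩
        rintro z (rfl | hz)
        · rcases key with hk | ⟨y, hy, hyc, hyb⟩
          · rintro rfl; exact hk hx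
          · rw [← hyc]; exact h' y hy
        · exact h' z hz
  · rintro ⟨h1, h2⟩
    rcases key with hk | ⟨y, hy, hyc, hyb⟩
    · exact hk h1
    · exact h2 y hy hyc

theorem evo_insert {q : ℕ → V → V} {b : ℕ → V → V → Prop} (hb : ∀ n, Total (b n)) {s : State V}
    {c : V} (hc : c ∉ s.cars) (n : ℕ) (h : c ∈ (evo q b ⟨insert c s.cars, s.spots⟩ n).cars) :
    evo q b ⟨insert c s.cars, s.spots⟩ n = ⟨insert c (evo q b s n).cars, (evo q b s n).spots⟩ ∧
      ∀ m < n, q m c ∉ (evo q b s n).spots := by
  induction n with
  | zero => exact ⟨rfl, by simp⟩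
  | succ n ih =>
    obtain ⟨h1, h2⟩ := ih (evo_cars_succ_subset _ _ _ _ h)
    have hcn : c ∉ (evo q b s n).cars := fun h' => hc (evo_cars_anti q b s (Nat.zero_le n) h')
    simp only [evo] at h ⊢
    rw [h1] at h ⊢
    obtain ⟨h3, h4⟩ := step_insert (hb n) hcn h
    refine ⟨h3, fun m hm => ?_⟩
    rcases Nat.lt_succ_iff_lt_or_eq.mp hm with hm | rfl
    · exact fun h' => h2 m hm (step_spots_subset _ _ _ h')
    · exact h4

end Pool.Agent.Lib.MP_971c94_pr
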