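import Pool.Agent.Lib.MP_971c94_pr.Defs

/-!
# Exit times from finite sets for doubly stochastic kernels, and the size of the range
-/

open MeasureTheory Set
open scoped ENNReal unitInterval

namespace Pool.Agent.Lib.MP_971c94_pr

section Real

variable {V : Type*} [DecidableEq V]

/-- The level-set inequality. -/
theorem level_set {k : V → V → ℝ} (hk : ∀ x y, 0 ≤ k x y)
    (hrow : ∀ (A : Finset V) x, ∑ y ∈ A, k x y ≤ 1)
    (hcol : ∀ (A : Finset V) y, ∑ x ∈ A, k x y ≤ 1)
    {S A : Finset V} (hAS : A ⊆ S) {T : V → ℝ}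
    (hsuper : ∀ x ∈ S, T x ≤ 1 + ∑ y ∈ S, k x y * T y)
    {m M : ℝ} (hm : ∀ x ∈ A, m ≤ T x) (hM : ∀ x ∈ S \ A, T x ≤ M) (hM0 : 0 ≤ M) :
    (m - M) * (A.card - ∑ x ∈ A, ∑ y ∈ A, k x y) ≤ A.card := by
  have h1 : ∑ x ∈ A, T x ≤ ∑ x ∈ A, (1 + ∑ y ∈ S, k x y * T y) :=
    Finset.sum_le_sum fun x hx => hsuper x (hAS hx)
  have h2 : ∑ x ∈ A, (1 + ∑ y ∈ S, k x y * T y) =
      A.card + (∑ x ∈ A, ∑ y ∈ A, k x y * T y + ∑ x ∈ A, ∑ y ∈ S \ A, k x y * T y) := by
    rw [Finset.sum_add_distrib, Finset.sum_const, nsmul_eq_mul, mul_one,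
      ← Finset.sum_add_distrib]
    congr 1
    refine Finset.sum_congr rfl fun x _ => ?_
    rw [add_comm, Finset.sum_sdiff hAS]
  have h3 : ∑ x ∈ A, ∑ y ∈ A, k x y * T y = ∑ y ∈ A, (∑ x ∈ A, k x y) * T y := by
    rw [Finset.sum_comm]
    refine Finset.sum_congr rfl fun y _ => ?_
    rw [Finset.sum_mul]
  have h4 : ∑ x ∈ A, ∑ y ∈ S \ A, k x y * T y ≤
      M * (A.card - ∑ x ∈ A, ∑ y ∈ A, k x y) := by
    calc ∑ x ∈ A, ∑ y ∈ S \ A, k x y * T y
        ≤ ∑ x ∈ A, ∑ y ∈ S \ A, k x y * M :=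
          Finset.sum_le_sum fun x _ => Finset.sum_le_sum fun y hy =>
            mul_le_mul_of_nonneg_left (hM y hy) (hk x y)
      _ = ∑ x ∈ A, M * ∑ y ∈ S \ A, k x y := by
          refine Finset.sum_congr rfl fun x _ => ?_
          rw [← Finset.sum_mul, mul_comm]
      _ ≤ ∑ x ∈ A, M * (1 - ∑ y ∈ A, k x y) := by
          refine Finset.sum_le_sum fun x _ => mul_le_mul_of_nonneg_left ?_ hM0
          have := hrow S x
          rw [← Finset.sum_sdiff hAS] at this
          linarith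
      _ = M * (A.card - ∑ x ∈ A, ∑ y ∈ A, k x y) := by
          rw [← Finset.mul_sum, Finset.sum_sub_distrib]
          simp
  have h5 : m * (A.card - ∑ x ∈ A, ∑ y ∈ A, k x y) ≤
      ∑ y ∈ A, T y - ∑ y ∈ A, (∑ x ∈ A, k x y) * T y := by
    calc m * (A.card - ∑ x ∈ A, ∑ y ∈ A, k x y)
        = ∑ y ∈ A, m * (1 - ∑ x ∈ A, k x y) := by
          rw [← Finset.mul_sum, Finset.sum_sub_distrib, Finset.sum_comm]
          simp
      _ ≤ ∑ y ∈ A, T y * (1 - ∑ x ∈ A, k x y) := by
          refine Finset.sum_le_sum fun y hy => mul_le_mul_of_nonneg_right (hm y hy) ?_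
          linarith [hcol A y]
      _ = ∑ y ∈ A, T y - ∑ y ∈ A, (∑ x ∈ A, k x y) * T y := by
          rw [← Finset.sum_sub_distrib]
          refine Finset.sum_congr rfl fun y _ => ?_
          ring
  rw [h3] at h2
  rw [h2] at h1
  have : (m - M) * (A.card - ∑ x ∈ A, ∑ y ∈ A, k x y) =
      m * (A.card - ∑ x ∈ A, ∑ y ∈ A, k x y) - M * (A.card - ∑ x ∈ A, ∑ y ∈ A, k x y) := by ring
  rw [this]
  linarith

theorem exit_aux {k : V → V → ℝ} (hk : ∀ x y, 0 ≤ k x y)
    (hrow : ∀ (A : Finset V) x, ∑ y ∈ A, k x y ≤ 1)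
    (hcol : ∀ (A : Finset V) y, ∑ x ∈ A, k x y ≤ 1)
    {κ : ℝ} (hκ : 0 < κ)
    (hflow : ∀ A : Finset V, A.Nonempty → κ ≤ A.card - ∑ x ∈ A, ∑ y ∈ A, k x y)
    {S : Finset V} {T : V → ℝ} (hT : ∀ x, 0 ≤ T x)
    (hsuper : ∀ x ∈ S, T x ≤ 1 + ∑ y ∈ S, k x y * T y) (n : ℕ) :
    ∀ A ⊆ S, A.Nonempty → (S \ A).card = n → (∀ x ∈ A, ∀ y ∈ S \ A, T y ≤ T x) →
      ∃ x ∈ A, T x ≤ (n + 1) * (S.card / κ) := by
  -- the basic inequality
  have basic : ∀ A ⊆ S, A.Nonempty → ∀ M : ℝ, 0 ≤ M → (∀ x ∈ S \ A, T x ≤ M) →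
      ∃ x ∈ A, T x ≤ M + S.card / κ := by
    intro A hAS hne M hM0 hM
    obtain ⟨x, hx, hmin⟩ := A.exists_min_image T hne
    refine ⟨x, hx, ?_⟩
    have h1 := level_set hk hrow hcol hAS hsuper hmin hM hM0
    have h2 := hflow A hne
    have h3 : (A.card : ℝ) ≤ S.card := by exact_mod_cast Finset.card_le_card hAS
    by_contra hcon
    push Not at hcon
    have h4 : S.card / κ < T x - M := by linarith
    have h5 : (S.card : ℝ) < (T x - M) * κ := by rwa [div_lt_iff₀ hκ] at h4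
    have h6 : 0 ≤ (S.card : ℝ) / κ := by positivity
    have h7 : (T x - M) * κ ≤ (T x - M) * (A.card - ∑ x ∈ A, ∑ y ∈ A, k x y) :=
      mul_le_mul_of_nonneg_left h2 (by linarith)
    linarith
  induction n with
  | zero =>
    intro A hAS hne hcard _
    obtain ⟨x, hx, h⟩ := basic A hAS hne 0 le_rfl (by
      rw [Finset.card_eq_zero] at hcard
      rw [hcard]; simp)
    exact ⟨x, hx, by simpa using h⟩
  | succ n ih =>
    intro A hAS hne hcard hlev
    have hne' : (S \ A).Nonempty := by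
      rw [← Finset.card_pos, hcard]; omega
    obtain ⟨y, hy, hmax⟩ := (S \ A).exists_max_image T hne'
    have hyS : y ∈ S := (Finset.mem_sdiff.mp hy).1
    have hyA : y ∉ A := (Finset.mem_sdiff.mp hy).2
    have hsub : S \ insert y A ⊆ S \ A := Finset.sdiff_subset_sdiff subset_rfl
      (Finset.subset_insert _ _)
    have hcard' : (S \ insert y A).card = n := by
      have : S \ insert y A = (S \ A).erase y := by
        ext z
        simp only [Finset.mem_sdiff, Finset.mem_insert, Finset.mem_erase]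
        tauto
      rw [this, Finset.card_erase_of_mem hy, hcard]
      simp
    have hylev : ∀ x ∈ insert y A, T y ≤ T x := by
      intro x hx
      rcases Finset.mem_insert.mp hx with rfl | hx
      · exact le_rfl
      · exact hlev x hx y hy
    obtain ⟨x, hx, h⟩ := ih (insert y A) (Finset.insert_subset hyS hAS) (Finset.insert_nonempty _ _)
      hcard' (by
        intro x hx z hz
        exact (hmax z (hsub hz)).trans (hylev x hx))
    have hTy : T y ≤ (n + 1) * (S.card / κ) := (hylev x hx).trans h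
    obtain ⟨x', hx', h'⟩ := basic A hAS hne (T y) (hT y) hmax
    refine ⟨x', hx', ?_⟩
    push_cast
    linarith

/-- The expected exit time bound. -/
theorem exit_bound {k : V → V → ℝ} (hk : ∀ x y, 0 ≤ k x y)
    (hrow : ∀ (A : Finset V) x, ∑ y ∈ A, k x y ≤ 1)
    (hcol : ∀ (A : Finset V) y, ∑ x ∈ A, k x y ≤ 1)
    {κ : ℝ} (hκ : 0 < κ)
    (hflow : ∀ A : Finset V, A.Nonempty → κ ≤ A.card - ∑ x ∈ A, ∑ y ∈ A, k x y)
    {S : Finset V} {T : V → ℝ} (hT : ∀ x, 0 ≤ T x)
    (hsuper : ∀ x ∈ S, T x ≤ 1 + ∑ y ∈ S, k x y * T y) {x : V} (hx : x ∈ S) :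
    T x ≤ (S.card : ℝ) ^ 2 / κ := by
  obtain ⟨x0, hx0, hmax⟩ := S.exists_max_image T ⟨x, hx⟩
  obtain ⟨z, hz, h⟩ := exit_aux hk hrow hcol hκ hflow hT hsuper (S \ {x0}).card {x0}
    (Finset.singleton_subset_iff.mpr hx0) (Finset.singleton_nonempty _) rfl (by
      intro a ha y hy
      rw [Finset.mem_singleton.mp ha]
      exact hmax y (Finset.mem_sdiff.mp hy).1)
  rw [Finset.mem_singleton.mp hz] at h
  have hc : ((S \ {x0}).card : ℝ) + 1 = S.card := by
    have := Finset.card_sdiff_add_card_eq_card (Finset.singleton_subset_iff.mpr hx0)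
    rw [Finset.card_singleton] at this
    exact_mod_cast this
  rw [hc] at h
  calc T x ≤ T x0 := hmax x hx
    _ ≤ S.card * (S.card / κ) := h
    _ = (S.card : ℝ) ^ 2 / κ := by ring

/-- Truncated expected exit time from `S`. -/
noncomputable def exitT (k : V → V → ℝ) (S : Finset V) : ℕ → V → ℝ
  | 0, _ => 0
  | n + 1, x => if x ∈ S then 1 + ∑ y ∈ S, k x y * exitT k S n y else 0

theorem exitT_nonneg {k : V → V → ℝ} (hk : ∀ x y, 0 ≤ k x y) (S : Finset V) (n : ℕ) (x : V) :
    0 ≤ exitT k S n x := by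
  induction n generalizing x with
  | zero => simp [exitT]
  | succ n ih =>
    simp only [exitT]
    split_ifs
    · have : 0 ≤ ∑ y ∈ S, k x y * exitT k S n y :=
        Finset.sum_nonneg fun y _ => mul_nonneg (hk x y) (ih y)
      linarith
    · exact le_rfl

theorem exitT_mono {k : V → V → ℝ} (hk : ∀ x y, 0 ≤ k x y) (S : Finset V) (n : ℕ) (x : V) :
    exitT k S n x ≤ exitT k S (n + 1) x := by
  induction n generalizing x with
  | zero =>
    have := exitT_nonneg hk S 1 x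
    simpa [exitT] using this
  | succ n ih =>
    rw [exitT, exitT]
    split_ifs
    · gcongr with y hy
      · exact hk x y
      · exact ih y
    · exact le_rfl

theorem exitT_le {k : V → V → ℝ} (hk : ∀ x y, 0 ≤ k x y)
    (hrow : ∀ (A : Finset V) x, ∑ y ∈ A, k x y ≤ 1)
    (hcol : ∀ (A : Finset V) y, ∑ x ∈ A, k x y ≤ 1)
    {κ : ℝ} (hκ : 0 < κ)
    (hflow : ∀ A : Finset V, A.Nonempty → κ ≤ A.card - ∑ x ∈ A, ∑ y ∈ A, k x y)
    (S : Finset V) (n : ℕ) {x : V} (hx : x ∈ S) :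
    exitT k S n x ≤ (S.card : ℝ) ^ 2 / κ := by
  refine exit_bound hk hrow hcol hκ hflow (exitT_nonneg hk S n) (fun x hx => ?_) hx
  have := exitT_mono hk S n x
  rw [exitT.eq_2, if_pos hx] at this
  exact this

end Real

section Range

variable {V : Type*} [DecidableEq V]

/-- `occ K w n S y = ∑_{t < n} E_y [w (|S ∪ {Y_1, …, Y_t}|)]`. -/
noncomputable def occ (K : V → PMF V) (w : ℕ → ℝ≥0∞) : ℕ → Finset V → V → ℝ≥0∞
  | 0, _, _ => 0
  | n + 1, S, y => w S.card + ∑' z, K y z * occ K w n (insert z S) z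

theorem occ_eq_tsum (K : V → PMF V) (w : ℕ → ℝ≥0∞) (n : ℕ) (S : Finset V) (y : V) :
    occ K w n S y = ∑' m, w m * occ K (fun j => if j = m then 1 else 0) n S y := by
  induction n generalizing S y with
  | zero => simp [occ]
  | succ n ih =>
    simp only [occ]
    simp_rw [ih, mul_add]
    rw [ENNReal.tsum_add]
    congr 1
    · rw [tsum_eq_single S.card]
      · simp
      · intro m hm
        rw [if_neg (Ne.symm hm), mul_zero]
    · simp_rw [← ENNReal.tsum_mul_left]
      rw [ENNReal.tsum_comm]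
      refine tsum_congr fun m => tsum_congr fun z => ?_
      ring

theorem occ_single_eq_zero (K : V → PMF V) {m : ℕ} (n : ℕ) (S : Finset V) (y : V)
    (hS : m < S.card) : occ K (fun j => if j = m then 1 else 0) n S y = 0 := by
  induction n generalizing S y with
  | zero => simp [occ]
  | succ n ih =>
    simp only [occ]
    rw [if_neg (by omega), zero_add, ENNReal.tsum_eq_zero]
    intro z
    rw [ih _ _ (hS.trans_le (Finset.card_le_card (Finset.subset_insert _ _))), mul_zero]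

theorem occ_single_le_exit (K : V → PMF V) {m : ℕ} (n : ℕ) (S : Finset V) (y : V)
    (hS : S.card = m) (hy : y ∈ S) :
    occ K (fun j => if j = m then 1 else 0) n S y ≤
      ENNReal.ofReal (exitT (fun x y => (K x y).toReal) S n y) := by
  induction n generalizing y with
  | zero => simp [occ]
  | succ n ih =>
    simp only [occ]
    rw [if_pos hS, exitT, if_pos hy]
    have hnn : ∀ z, 0 ≤ exitT (fun x y => (K x y).toReal) S n z :=
      exitT_nonneg (fun _ _ => ENNReal.toReal_nonneg) S n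
    rw [ENNReal.ofReal_add zero_le_one
      (Finset.sum_nonneg fun z _ => mul_nonneg ENNReal.toReal_nonneg (hnn z)), ENNReal.ofReal_one,
      ENNReal.ofReal_sum_of_nonneg (fun z _ => mul_nonneg ENNReal.toReal_nonneg (hnn z))]
    gcongr
    rw [tsum_eq_sum (s := S)]
    · refine Finset.sum_le_sum fun z hz => ?_
      rw [ENNReal.ofReal_mul ENNReal.toReal_nonneg,
        ENNReal.ofReal_toReal (PMF.apply_ne_top (K y) z)]
      gcongr
      rw [Finset.insert_eq_of_mem hz]
      exact ih z hz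
    · intro z hz
      rw [occ_single_eq_zero K n (insert z S) z (by
        rw [Finset.card_insert_of_notMem hz, hS]; exact Nat.lt_succ_self m), mul_zero]

theorem occ_single_le (K : V → PMF V) {κ : ℝ} (hκ : 0 < κ)
    (hcol : ∀ (A : Finset V) y, ∑ x ∈ A, (K x y).toReal ≤ 1)
    (hflow : ∀ A : Finset V, A.Nonempty → κ ≤ A.card - ∑ x ∈ A, ∑ y ∈ A, (K x y).toReal)
    (m : ℕ) (n : ℕ) (S : Finset V) (y : V) (hy : y ∈ S) :
    occ K (fun j => if j = m then 1 else 0) n S y ≤ ENNReal.ofReal ((m : ℝ) ^ 2 / κ) := by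
  have hrow : ∀ (A : Finset V) x, ∑ y ∈ A, (K x y).toReal ≤ 1 := by
    intro A x
    rw [← ENNReal.toReal_sum (fun y _ => PMF.apply_ne_top (K x) y)]
    refine ENNReal.toReal_le_of_le_ofReal zero_le_one ?_
    rw [ENNReal.ofReal_one]
    exact (ENNReal.sum_le_tsum A).trans (PMF.tsum_coe (K x)).le
  induction n generalizing S y with
  | zero => simp [occ]
  | succ n ih =>
    rcases lt_trichotomy S.card m with h | h | h
    · simp only [occ]
      rw [if_neg h.ne, zero_add]
      calc ∑' z, K y z * occ K (fun j => if j = m then 1 else 0) n (insert z S) z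
          ≤ ∑' z, K y z * ENNReal.ofReal ((m : ℝ) ^ 2 / κ) := by
            gcongr with z
            exact ih _ _ (Finset.mem_insert_self z S)
        _ = ENNReal.ofReal ((m : ℝ) ^ 2 / κ) := by
            rw [ENNReal.tsum_mul_right, PMF.tsum_coe, one_mul]
    · refine (occ_single_le_exit K (n + 1) S y h hy).trans (ENNReal.ofReal_le_ofReal ?_)
      have := exitT_le (k := fun x y => (K x y).toReal) (fun _ _ => ENNReal.toReal_nonneg) hrow hcol
        hκ hflow S (n + 1) hy
      rwa [h] at this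
    · rw [occ_single_eq_zero K (n + 1) S y h]
      exact zero_le

theorem occ_le (K : V → PMF V) {κ : ℝ} (hκ : 0 < κ)
    (hcol : ∀ (A : Finset V) y, ∑ x ∈ A, (K x y).toReal ≤ 1)
    (hflow : ∀ A : Finset V, A.Nonempty → κ ≤ A.card - ∑ x ∈ A, ∑ y ∈ A, (K x y).toReal)
    (w : ℕ → ℝ≥0∞) (n : ℕ) (S : Finset V) (y : V) (hy : y ∈ S) :
    occ K w n S y ≤ ∑' m, w m * ENNReal.ofReal ((m : ℝ) ^ 2 / κ) := by
  rw [occ_eq_tsum]
  gcongr with m
  exact occ_single_le K hκ hcol hflow m n S y hy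

end Range

end Pool.Agent.Lib.MP_971c94_pr
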