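import Pool.Agent.Lib.MP_971c94_pr.Nice

/-!
# An almost surely equal version of the process, to which the decoupling inequality applies
-/

open MeasureTheory Set Function
open scoped ENNReal unitInterval

namespace Pool.Agent.Lib.MP_971c94_pr

section Defs

variable {V : Type*}

open Classical in
/-- The walk that ignores instructions which do not point along an edge. -/
noncomputable def safeWalk (G : SimpleGraph V) (ζ : ℕ × V → V) (x : V) : ℕ → V
  | 0 => x
  | n + 1 => if G.Adj (safeWalk G ζ x n) (ζ (n, safeWalk G ζ x n))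
      then ζ (n, safeWalk G ζ x n) else safeWalk G ζ x n

theorem safeWalk_near (G : SimpleGraph V) (ζ : ℕ × V → V) (x : V) (n : ℕ) :
    Near G n x (safeWalk G ζ x n) := by
  induction n with
  | zero => rfl
  | succ n ih =>
    refine ⟨_, ih, ?_⟩
    simp only [safeWalk]
    split_ifs with h
    · exact Or.inr h
    · exact Or.inl rfl

/-- Comparison of priorities, ties being broken by the injection `e`. -/
def lexBeats (e : V → ℕ) (ω : V → Site V) (n : ℕ) (x y : V) : Prop :=
  (ω x).2.2 n < (ω y).2.2 n ∨ ((ω x).2.2 n = (ω y).2.2 n ∧ e x < e y)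

theorem lexBeats_total {e : V → ℕ} (he : Injective e) (ω : V → Site V) (n : ℕ) :
    Total (lexBeats e ω n) where
  irrefl x := by
    rintro (h | ⟨_, h⟩)
    · exact lt_irrefl _ h
    · exact lt_irrefl _ h
  trans x y z := by
    rintro (h1 | ⟨h1, h1'⟩) (h2 | ⟨h2, h2'⟩)
    · exact Or.inl (h1.trans h2)
    · exact Or.inl (h2 ▸ h1)
    · exact Or.inl (h1 ▸ h2)
    · exact Or.inr ⟨h1.trans h2, h1'.trans h2'⟩
  total x y hxy := by
    rcases lt_trichotomy ((ω x).2.2 n) ((ω y).2.2 n) with h | h | h
    · exact Or.inl (Or.inl h)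
    · rcases lt_or_gt_of_ne (fun h' => hxy (he h') : e x ≠ e y) with h' | h'
      · exact Or.inl (Or.inr ⟨h, h'⟩)
      · exact Or.inr (Or.inr ⟨h.symm, h'⟩)
    · exact Or.inr (Or.inl h)

/-- The evolution with safe walks and lexicographic priorities. -/
noncomputable def ievo (G : SimpleGraph V) (e : V → ℕ) (ω : V → Site V) (s : State V) :
    ℕ → State V :=
  evo (fun n x => safeWalk G (ω x).2.1 x (n + 1)) (lexBeats e ω) s

/-- The internal version of the process. -/
noncomputable def istate (G : SimpleGraph V) (e : V → ℕ) (ω : V → Site V) : ℕ → State V :=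
  ievo G e ω (initial ω)

theorem safeWalk_eq {G : SimpleGraph V} {ω : V → Site V} (h : Nice G ω) (x : V) (n : ℕ) :
    safeWalk G (ω x).2.1 x n = pos ω x n := by
  induction n with
  | zero => rfl
  | succ n ih =>
    simp only [safeWalk, pos]
    rw [ih, if_pos (h.adj x n _)]

theorem istate_eq {G : SimpleGraph V} (e : V → ℕ) {ω : V → Site V} (h : Nice G ω) (n : ℕ) :
    istate G e ω n = state ω n := by
  refine evo_congr (fun n x _ => safeWalk_eq h x (n + 1)) (fun n x _ y _ hne => ?_) n
  unfold lexBeats
  constructor
  · rintro (h' | ⟨h', _⟩)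
    · exact h'
    · exact absurd h' (h.prio n x y (Ne.symm hne))
  · exact Or.inl

theorem ievo_finite {G : SimpleGraph V} (hG : ∀ v, (G.neighborSet v).Finite)
    (ω : V → Site V) (n : ℕ) (v : V) :
    {x | safeWalk G (ω x).2.1 x (n + 1) = v}.Finite := by
  refine (near_finite_left hG (n + 1) v).subset fun x hx => ?_
  have := safeWalk_near G (ω x).2.1 x (n + 1)
  simp only [mem_ofPred_eq] at hx
  rw [hx] at this
  exact this

/-- The evolution only depends on the data of the cars. -/
theorem ievo_congr {G : SimpleGraph V} {e : V → ℕ} {ω ω' : V → Site V} {s : State V}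
    (h : ∀ x ∈ s.cars, (ω x).2 = (ω' x).2) (n : ℕ) : ievo G e ω s n = ievo G e ω' s n := by
  refine evo_congr (fun n x hx => by simp only [h x hx]) (fun n x hx y hy _ => ?_) n
  unfold lexBeats
  rw [h x hx, h y hy]

/-- The initial state with nothing at `i`. -/
def neutral (ω : V → Site V) (i : V) : State V where
  cars := {x | x ≠ i ∧ (ω x).1 = true}
  spots := {x | x ≠ i ∧ (ω x).1 = false}

variable [DecidableEq V]

theorem neutral_update (ω : V → Site V) (i : V) (c : Site V) :
    neutral (update ω i c) i = neutral ω i := by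
  ext x
  · simp only [neutral, mem_ofPred_eq]
    refine and_congr_right fun h => ?_
    rw [update_of_ne h]
  · simp only [neutral, mem_ofPred_eq]
    refine and_congr_right fun h => ?_
    rw [update_of_ne h]

omit [DecidableEq V] in
theorem initial_of_spot {ω : V → Site V} {i : V} (h : (ω i).1 = false) :
    neutral ω i = ⟨(initial ω).cars, (initial ω).spots \ {i}⟩ := by
  ext x
  · simp only [neutral, initial, mem_ofPred_eq]
    constructor
    · exact fun h' => h'.2
    · intro h'
      refine ⟨?_, h'⟩
      rintro rfl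
      rw [h] at h'
      exact absurd h' (by decide)
  · simp only [neutral, initial, mem_ofPred_eq, mem_sdiff, mem_singleton_iff]
    tauto

theorem initial_of_car {ω : V → Site V} {i : V} (h : (ω i).1 = true) :
    initial ω = ⟨insert i (neutral ω i).cars, (neutral ω i).spots⟩ := by
  ext x
  · simp only [neutral, initial, mem_ofPred_eq, mem_insert_iff]
    constructor
    · intro h'
      by_cases hx : x = i
      · exact Or.inl hx
      · exact Or.inr ⟨hx, h'⟩
    · rintro (rfl | h')
      · exact h
      · exact h'.2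
  · simp only [neutral, initial, mem_ofPred_eq]
    constructor
    · intro h'
      refine ⟨?_, h'⟩
      rintro rfl
      rw [h] at h'
      exact absurd h' (by decide)
    · exact fun h' => h'.2

theorem disc_spot {ω : V → Site V} {i : V} (h : (ω i).1 = false) :
    Disc (initial ω) (neutral ω i) :=
  Or.inr ⟨i, h, initial_of_spot h⟩

theorem disc_car {ω : V → Site V} {i : V} (h : (ω i).1 = true) :
    Disc (neutral ω i) (initial ω) :=
  Or.inl ⟨i, fun h' => h'.1 rfl, initial_of_car h⟩

theorem ievo_neutral_congr {G : SimpleGraph V} {e : V → ℕ} (ω : V → Site V) (i : V)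
    (c c' : Site V) (n : ℕ) :
    ievo G e (update ω i c) (neutral ω i) n = ievo G e (update ω i c') (neutral ω i) n := by
  refine ievo_congr (fun x hx => ?_) n
  have hx' : x ≠ i := hx.1
  rw [update_of_ne hx', update_of_ne hx']

theorem istate_spot_congr {G : SimpleGraph V} {e : V → ℕ} (ω : V → Site V) (i : V)
    (d d' : (ℕ × V → V) × (ℕ → I)) (n : ℕ) :
    istate G e (update ω i (false, d)) n = istate G e (update ω i (false, d')) n := by
  have h1 : initial (update ω i (false, d)) = initial (update ω i (false, d')) := by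
    ext x
    · simp only [initial, mem_ofPred_eq]
      by_cases hx : x = i
      · subst hx; rw [update_self, update_self]
      · rw [update_of_ne hx, update_of_ne hx]
    · simp only [initial, mem_ofPred_eq]
      by_cases hx : x = i
      · subst hx; rw [update_self, update_self]
      · rw [update_of_ne hx, update_of_ne hx]
  unfold istate
  rw [h1]
  refine ievo_congr (fun x hx => ?_) n
  have hx' : x ≠ i := by
    rintro rfl
    simp only [initial, mem_ofPred_eq, update_self] at hx
    exact absurd hx (by decide)
  rw [update_of_ne hx', update_of_ne hx']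

open Classical in
/-- The number of free spots in `S` at time `t`. -/
noncomputable def cnt (G : SimpleGraph V) (e : V → ℕ) (S : Finset V) (t : ℕ) (ω : V → Site V) :
    ℝ := ((S.filter (· ∈ (istate G e ω t).spots)).card : ℝ)

omit [DecidableEq V] in
theorem cnt_nonneg (G : SimpleGraph V) (e : V → ℕ) (S : Finset V) (t : ℕ) (ω : V → Site V) :
    0 ≤ cnt G e S t ω := Nat.cast_nonneg _

omit [DecidableEq V] in
theorem cnt_le (G : SimpleGraph V) (e : V → ℕ) (S : Finset V) (t : ℕ) (ω : V → Site V) :
    cnt G e S t ω ≤ S.card := by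
  classical
  unfold cnt
  exact_mod_cast Finset.card_filter_le _ _

theorem cnt_car_spot {G : SimpleGraph V} (hG : ∀ v, (G.neighborSet v).Finite) {e : V → ℕ}
    (he : Injective e) (S : Finset V) (t : ℕ) (ω : V → Site V) (i : V)
    (d d' : (ℕ × V → V) × (ℕ → I)) :
    cnt G e S t (update ω i (true, d')) ≤ cnt G e S t (update ω i (false, d)) ∧
    cnt G e S t (update ω i (false, d)) - 2 ≤ cnt G e S t (update ω i (true, d')) := by
  classical
  have h1 : Disc (istate G e (update ω i (false, d)) t)
      (ievo G e (update ω i (false, d)) (neutral (update ω i (false, d)) i) t) :=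
    (disc_spot (ω := update ω i (false, d)) (i := i) (by rw [update_self])).evo
      (lexBeats_total he _) (ievo_finite hG _) t
  have h2 : Disc (ievo G e (update ω i (true, d')) (neutral (update ω i (true, d')) i) t)
      (istate G e (update ω i (true, d')) t) :=
    (disc_car (ω := update ω i (true, d')) (i := i) (by rw [update_self])).evo
      (lexBeats_total he _) (ievo_finite hG _) t
  rw [neutral_update] at h1 h2
  rw [ievo_neutral_congr ω i (false, d) (true, d')] at h1
  obtain ⟨a1, b1⟩ := h1.card_le S
  obtain ⟨a2, b2⟩ := h2.card_le S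
  unfold cnt
  have a1' := (Nat.cast_le (α := ℝ)).mpr a1
  have a2' := (Nat.cast_le (α := ℝ)).mpr a2
  have b1' := (Nat.cast_le (α := ℝ)).mpr b1
  have b2' := (Nat.cast_le (α := ℝ)).mpr b2
  push_cast at b1' b2'
  constructor
  · exact a2'.trans a1'
  · linarith

end Defs

section FD

variable {V : Type*}

/-- `A` depends on finitely many coordinates. -/
def FD (A : (V → Site V) → Prop) : Prop := ∃ J : Finset V, DependsOn A (J : Set V)

theorem FD.map2 [DecidableEq V] {A B : (V → Site V) → Prop} (hA : FD A) (hB : FD B)
    (f : Prop → Prop → Prop) : FD fun ω => f (A ω) (B ω) := by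
  obtain ⟨J, hJ⟩ := hA
  obtain ⟨J', hJ'⟩ := hB
  refine ⟨J ∪ J', fun x y hxy => ?_⟩
  have h1 : A x = A y := hJ fun i hi => hxy i (by
    rw [Finset.coe_union]; exact Or.inl hi)
  have h2 : B x = B y := hJ' fun i hi => hxy i (by
    rw [Finset.coe_union]; exact Or.inr hi)
  simp only [h1, h2]

theorem FD.and {A B : (V → Site V) → Prop} (hA : FD A) (hB : FD B) :
    FD fun ω => A ω ∧ B ω := by
  classical exact hA.map2 hB And

theorem FD.imp {A B : (V → Site V) → Prop} (hA : FD A) (hB : FD B) :
    FD fun ω => A ω → B ω := by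
  classical exact hA.map2 hB fun a b => a → b

theorem FD.not {A : (V → Site V) → Prop} (hA : FD A) : FD fun ω => ¬ A ω := by
  classical exact hA.map2 hA fun a _ => ¬ a

theorem FD.const (a : Prop) : FD fun _ : V → Site V => a := ⟨∅, fun _ _ _ => rfl⟩

theorem FD.coord (x : V) (f : Site V → Prop) : FD fun ω : V → Site V => f (ω x) :=
  ⟨{x}, fun ω ω' h => by
    have : ω x = ω' x := h x (by simp)
    simp only [this]⟩

theorem FD.coord2 (x y : V) (f : Site V → Site V → Prop) :
    FD fun ω : V → Site V => f (ω x) (ω y) := by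
  classical
  exact ⟨{x, y}, fun ω ω' h => by
    have h1 : ω x = ω' x := h x (by simp)
    have h2 : ω y = ω' y := h y (by simp)
    simp only [h1, h2]⟩

theorem FD.ball {ι : Type*} {s : Set ι} (hs : s.Finite) {A : ι → (V → Site V) → Prop}
    (h : ∀ i ∈ s, FD (A i)) : FD fun ω => ∀ i ∈ s, A i ω := by
  classical
  choose! J hJ using h
  refine ⟨hs.toFinset.biUnion J, fun x y hxy => ?_⟩
  have h1 : ∀ i ∈ s, A i x = A i y := fun i hi => hJ i hi fun j hj => hxy j (by
    rw [Finset.mem_coe, Finset.mem_biUnion]
    exact ⟨i, hs.mem_toFinset.mpr hi, hj⟩)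
  simp only [eq_iff_iff]
  exact forall₂_congr fun i hi => by rw [h1 i hi]

theorem FD.bex {ι : Type*} {s : Set ι} (hs : s.Finite) {A : ι → (V → Site V) → Prop}
    (h : ∀ i ∈ s, FD (A i)) : FD fun ω => ∃ i ∈ s, A i ω := by
  have h1 := (FD.ball hs fun i hi => (h i hi).not).not
  have h2 : (fun ω => ∃ i ∈ s, A i ω) = fun ω => ¬ ∀ i ∈ s, ¬ A i ω := by
    funext ω
    simp
  rw [h2]
  exact h1

theorem istate_FD {G : SimpleGraph V} (hG : ∀ v, (G.neighborSet v).Finite) (e : V → ℕ) (n : ℕ) :
    (∀ x, FD fun ω : V → Site V => x ∈ (istate G e ω n).cars) ∧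
    (∀ v, FD fun ω : V → Site V => v ∈ (istate G e ω n).spots) := by
  induction n with
  | zero =>
    exact ⟨fun x => FD.coord x fun c => c.1 = true, fun x => FD.coord x fun c => c.1 = false⟩
  | succ n ih =>
    obtain ⟨ih1, ih2⟩ := ih
    refine ⟨fun x => ?_, fun v => ?_⟩
    · have : (fun ω : V → Site V => x ∈ (istate G e ω (n + 1)).cars) =
          fun ω => x ∈ (istate G e ω n).cars ∧
            ¬ ∃ w ∈ {w | Near G (n + 1) x w}, safeWalk G (ω x).2.1 x (n + 1) = w ∧
              (w ∈ (istate G e ω n).spots ∧
              ∀ y ∈ {y | Near G (n + 1) y w}, y ∈ (istate G e ω n).cars →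
                safeWalk G (ω y).2.1 y (n + 1) = w → y ≠ x → lexBeats e ω n x y) := by
        funext ω
        simp only [istate, ievo, evo, State.step, mem_ofPred_eq, eq_iff_iff]
        refine and_congr_right fun _ => not_congr ?_
        constructor
        · rintro ⟨h1, h2⟩
          exact ⟨_, safeWalk_near G _ x (n + 1), rfl, h1, fun y _ hy hyw hne => h2 y hy hyw hne⟩
        · rintro ⟨w, _, rfl, h1, h2⟩
          refine ⟨h1, fun y hy hyw hne => h2 y ?_ hy hyw hne⟩
          rw [← hyw]
          exact safeWalk_near G _ y (n + 1)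
      rw [this]
      refine (ih1 x).and (FD.not ?_)
      refine FD.bex (near_finite_right hG (n + 1) x) fun w _ => ?_
      refine (FD.coord x fun c => safeWalk G c.2.1 x (n + 1) = w).and ((ih2 w).and ?_)
      refine FD.ball (near_finite_left hG (n + 1) w) fun y _ => ?_
      refine (ih1 y).imp ?_
      refine (FD.coord y fun c => safeWalk G c.2.1 y (n + 1) = w).imp ?_
      refine (FD.const _).imp ?_
      exact FD.coord2 x y fun c c' => c.2.2 n < c'.2.2 n ∨ (c.2.2 n = c'.2.2 n ∧ e x < e y)
    · have : (fun ω : V → Site V => v ∈ (istate G e ω (n + 1)).spots) =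
          fun ω => v ∈ (istate G e ω n).spots ∧
            ∀ x ∈ {x | Near G (n + 1) x v}, x ∈ (istate G e ω n).cars →
              ¬ (safeWalk G (ω x).2.1 x (n + 1) = v) := by
        funext ω
        simp only [istate, ievo, evo, State.step, mem_ofPred_eq, eq_iff_iff]
        refine and_congr_right fun _ => ?_
        constructor
        · intro h x _ hx
          exact h x hx
        · intro h x hx hxv
          refine h x ?_ hx hxv
          rw [← hxv]
          exact safeWalk_near G _ x (n + 1)
      rw [this]
      refine (ih2 v).and ?_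
      refine FD.ball (near_finite_left hG (n + 1) v) fun x _ => ?_
      exact (ih1 x).imp (FD.coord x fun c => safeWalk G c.2.1 x (n + 1) = v).not

theorem cnt_dependsOn {G : SimpleGraph V} (hG : ∀ v, (G.neighborSet v).Finite) (e : V → ℕ)
    (S : Finset V) (t : ℕ) : ∃ J : Finset V, DependsOn (cnt G e S t) (J : Set V) := by
  classical
  have h := (istate_FD hG e t).2
  choose J hJ using h
  refine ⟨S.biUnion J, fun x y hxy => ?_⟩
  unfold cnt
  congr 2
  refine Finset.filter_congr fun v hv => ?_
  have := hJ v (x := x) (y := y) fun j hj => hxy j (by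
    rw [Finset.mem_coe, Finset.mem_biUnion]
    exact ⟨v, hv, hj⟩)
  simp only [eq_iff_iff] at this
  exact this

end FD

section Measure

variable {V : Type*} [MeasurableSpace V] [DiscreteMeasurableSpace V] [Countable V]

theorem measurable_safeWalk_eq (G : SimpleGraph V) (x : V) (n : ℕ) (v : V) :
    Measurable fun ω : V → Site V => safeWalk G (ω x).2.1 x n = v := by
  induction n generalizing v with
  | zero => exact (measurable_const : Measurable fun _ : V → Site V => x = v)
  | succ n ih =>
    have : (fun ω : V → Site V => safeWalk G (ω x).2.1 x (n + 1) = v) =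
        fun ω => ∃ u, safeWalk G (ω x).2.1 x n = u ∧
          ((G.Adj u v ∧ (ω x).2.1 (n, u) = v) ∨
            ((∃ w, ¬ G.Adj u w ∧ (ω x).2.1 (n, u) = w) ∧ u = v)) := by
      funext ω
      simp only [safeWalk, eq_iff_iff]
      constructor
      · intro h
        refine ⟨_, rfl, ?_⟩
        split_ifs at h with h'
        · left
          rw [← h]
          exact ⟨h', rfl⟩
        · right
          exact ⟨⟨_, h', rfl⟩, h⟩
      · rintro ⟨u, rfl, h⟩
        rcases h with ⟨h1, h2⟩ | ⟨⟨w, h1, h2⟩, h3⟩
        · rw [h2, if_pos h1]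
        · rw [h2, if_neg h1, h3]
    rw [this]
    refine Measurable.exists fun u => (ih u).and (Measurable.or ?_ ?_)
    · exact measurable_const.and (measurable_coord_eq x (n, u) v)
    · refine Measurable.and (Measurable.exists fun w => ?_) measurable_const
      exact measurable_const.and (measurable_coord_eq x (n, u) w)

theorem measurable_istate (G : SimpleGraph V) (e : V → ℕ) (n : ℕ) :
    (∀ x, Measurable fun ω : V → Site V => x ∈ (istate G e ω n).cars) ∧
    (∀ v, Measurable fun ω : V → Site V => v ∈ (istate G e ω n).spots) := by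
  refine measurable_evo (fun n x v => measurable_safeWalk_eq G x (n + 1) v)
    (fun n x y => ?_) (fun x => ?_) (fun v => ?_) n
  · exact (measurable_prio_lt n x y).or ((measurable_prio_eq n x y).and measurable_const)
  · exact measurable_car x true
  · exact measurable_car v false

omit [MeasurableSpace V] [DiscreteMeasurableSpace V] [Countable V] in
theorem cnt_eq_sum (G : SimpleGraph V) (e : V → ℕ) (S : Finset V) (t : ℕ) (ω : V → Site V) :
    cnt G e S t ω = ∑ v ∈ S, {ω' : V → Site V | v ∈ (istate G e ω' t).spots}.indicator 1 ω := by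
  classical
  unfold cnt
  rw [Finset.card_filter]
  push_cast
  refine Finset.sum_congr rfl fun v _ => ?_
  simp [indicator]

theorem measurable_cnt (G : SimpleGraph V) (e : V → ℕ) (S : Finset V) (t : ℕ) :
    Measurable (cnt G e S t) := by
  have : cnt G e S t = fun ω => ∑ v ∈ S,
      {ω' : V → Site V | v ∈ (istate G e ω' t).spots}.indicator 1 ω := by
    funext ω; exact cnt_eq_sum G e S t ω
  rw [this]
  refine Finset.measurable_sum _ fun v _ => ?_
  exact measurable_one.indicator (measurableSet_setOfPred.mpr ((measurable_istate G e t).2 v))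

theorem good_cnt [DecidableEq V] {G : SimpleGraph V} (hG : ∀ v, (G.neighborSet v).Finite)
    {e : V → ℕ} (he : Injective e) (S : Finset V) (t : ℕ) : Good (cnt G e S t) where
  meas := measurable_cnt G e S t
  bdd := ⟨S.card, fun ω => by
    rw [abs_of_nonneg (cnt_nonneg G e S t ω)]; exact cnt_le G e S t ω⟩
  spot ω i d d' := by
    unfold cnt
    rw [istate_spot_congr ω i d d' t]
  car_ge ω i d d' := (cnt_car_spot hG he S t ω i d d').2
  car_le ω i d d' := (cnt_car_spot hG he S t ω i d d').1

variable {G : SimpleGraph V} {K : V → PMF V} {Γ : Subgroup (G ≃g G)}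

/-- **Key estimate.** The probability that a finite set contains no free spot at time `t`
is exponentially small in its size, uniformly in `t`. -/
theorem prob_no_spot_le (T : IsTriple G K Γ) {e : V → ℕ} (he : Injective e) (p : I)
    (hp : (p : ℝ) < 1 / 2) (S : Finset V) (t : ℕ) :
    (law K p).real {ω | ∀ v ∈ S, v ∉ (istate G e ω t).spots} ≤
      Real.exp (-((1 - 2 * (p : ℝ)) ^ 2 / 8 * S.card)) := by
  classical
  set l : ℝ := (1 - 2 * (p : ℝ)) / 4 with hl
  have hp0 : 0 ≤ (p : ℝ) := p.2.1
  have hl0 : 0 ≤ l := by rw [hl]; linarith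
  have hl1 : l ≤ 1 / 2 := by rw [hl]; linarith
  set p0 : I := ⟨(p : ℝ) + l, by constructor <;> linarith⟩ with hp0def
  have hp0val : (p0 : ℝ) = (p : ℝ) + l := rfl
  have hpp : (p : ℝ) * (1 + 2 * l) ≤ p0 := by
    rw [hp0val]; nlinarith
  obtain ⟨J, hJ⟩ := cnt_dependsOn T.locallyFinite e S t
  have hgood := good_cnt T.locallyFinite he S t
  have hdec : ∫ ω, Real.exp (-(l * cnt G e S t ω)) ∂(law K p) ≤
      Real.exp (-(l * ∫ ω, cnt G e S t ω ∂(law K p0))) :=
    decouple _ hl0 hl1 hpp J (cnt G e S t) hgood hJ
  -- lower bound for the mean at density `p0`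
  have hmean : (S.card : ℝ) * (1 - 2 * p0) ≤ ∫ ω, cnt G e S t ω ∂(law K p0) := by
    simp_rw [cnt_eq_sum]
    have hms : ∀ v, MeasurableSet {ω' : V → Site V | v ∈ (istate G e ω' t).spots} := fun v =>
      measurableSet_setOfPred.mpr ((measurable_istate G e t).2 v)
    have hint : ∀ v, Integrable ({ω' : V → Site V | v ∈ (istate G e ω' t).spots}.indicator
        (1 : (V → Site V) → ℝ)) (law K p0) := fun v =>
      (integrable_const (1 : ℝ)).indicator (hms v)
    rw [integral_finsetSum _ fun v _ => hint v]
    have h1 : ∀ v, ∫ ω, {ω' : V → Site V | v ∈ (istate G e ω' t).spots}.indicator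
        (1 : (V → Site V) → ℝ) ω ∂(law K p0) =
        (law K p0).real {ω' | v ∈ (istate G e ω' t).spots} := fun v =>
      integral_indicator_one (hms v)
    simp_rw [h1]
    have h2 : ∀ v, (law K p0).real {ω' | v ∈ (istate G e ω' t).spots} =
        (law K p0).real {ω' | v ∈ (state ω' t).spots} := by
      intro v
      refine measureReal_congr ?_
      filter_upwards [nice_ae T.supported p0] with ω hω
      simp only [eq_iff_iff]
      change v ∈ (istate G e ω t).spots ↔ v ∈ (state ω t).spots
      rw [istate_eq e hω t]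
    simp_rw [h2]
    rw [← nsmul_eq_mul]
    exact Finset.card_nsmul_le_sum S _ _ fun v _ => prob_spots_ge T p0 v t
  have hms : MeasurableSet {ω : V → Site V | ∀ v ∈ S, v ∉ (istate G e ω t).spots} := by
    rw [measurableSet_setOfPred]
    exact Measurable.forall fun v => measurable_const.imp ((measurable_istate G e t).2 v).not
  have hexpint : Integrable (fun ω => Real.exp (-(l * cnt G e S t ω))) (law K p) := by
    refine Integrable.of_bound (C := 1) ?_ (ae_of_all _ fun ω => ?_)
    · exact (Real.measurable_exp.comp ((measurable_cnt G e S t).const_mul l).neg).aestronglyMeasurable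
    · rw [Real.norm_eq_abs, abs_of_pos (Real.exp_pos _), Real.exp_le_one_iff]
      have := mul_nonneg hl0 (cnt_nonneg G e S t ω)
      linarith
  calc (law K p).real {ω | ∀ v ∈ S, v ∉ (istate G e ω t).spots}
      = ∫ ω, {ω | ∀ v ∈ S, v ∉ (istate G e ω t).spots}.indicator
          (1 : (V → Site V) → ℝ) ω ∂(law K p) := (integral_indicator_one hms).symm
    _ ≤ ∫ ω, Real.exp (-(l * cnt G e S t ω)) ∂(law K p) := by
        refine integral_mono ((integrable_const (1 : ℝ)).indicator hms) hexpint fun ω => ?_
        by_cases h : ω ∈ {ω : V → Site V | ∀ v ∈ S, v ∉ (istate G e ω t).spots}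
        · rw [indicator_of_mem h]
          have hz : cnt G e S t ω = 0 := by
            unfold cnt
            rw [Nat.cast_eq_zero, Finset.card_eq_zero, Finset.filter_eq_empty_iff]
            exact fun v hv => h v hv
          rw [hz]
          simp
        · rw [indicator_of_notMem h]
          exact (Real.exp_pos _).le
    _ ≤ Real.exp (-(l * ∫ ω, cnt G e S t ω ∂(law K p0))) := hdec
    _ ≤ Real.exp (-((1 - 2 * (p : ℝ)) ^ 2 / 8 * S.card)) := by
        refine Real.exp_le_exp.mpr ?_
        have h3 := mul_le_mul_of_nonneg_left hmean hl0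
        have h4 : l * (S.card * (1 - 2 * (p0 : ℝ))) = (1 - 2 * (p : ℝ)) ^ 2 / 8 * S.card := by
          rw [hp0val, hl]; ring
        linarith

end Measure

end Pool.Agent.Lib.MP_971c94_pr
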