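import Pool.Agent.Lib.MP_971c94_pr.Defs

/-!
# The mass transport principle and its consequences for the kernel
-/

open MeasureTheory Set
open scoped ENNReal unitInterval

namespace Pool.Agent.Lib.MP_971c94_pr

section MTP

variable {V : Type*} {G : SimpleGraph V} {K : V → PMF V} {Γ : Subgroup (G ≃g G)}

theorem IsTriple.K_inv (T : IsTriple G K Γ) {φ : G ≃g G} (hφ : φ ∈ Γ) (u v : V) :
    K (φ u) (φ v) = K u v := T.le_autK hφ u v

theorem mem_stabOrbit_self (Γ : Subgroup (G ≃g G)) (u v : V) : v ∈ stabOrbit Γ u v :=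
  ⟨1, Γ.one_mem, rfl, rfl⟩

theorem stabOrbit_eq_of_mem {u v w : V} (h : w ∈ stabOrbit Γ u v) :
    stabOrbit Γ u w = stabOrbit Γ u v := by
  obtain ⟨φ, hφ, hu, hv⟩ := h
  ext z
  constructor
  · rintro ⟨ψ, hψ, hu', hw⟩
    refine ⟨ψ * φ, Γ.mul_mem hψ hφ, ?_, ?_⟩
    · rw [RelIso.mul_apply, hu, hu']
    · rw [RelIso.mul_apply, hv, hw]
  · rintro ⟨ψ, hψ, hu', hz⟩
    refine ⟨ψ * φ⁻¹, Γ.mul_mem hψ (Γ.inv_mem hφ), ?_, ?_⟩
    · rw [RelIso.mul_apply]
      conv_lhs => rw [← hu]
      rw [RelIso.inv_apply_self, hu']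
    · rw [RelIso.mul_apply, ← hv, RelIso.inv_apply_self, hz]

open Classical in
/-- **Mass transport principle.** -/
theorem IsTriple.mass_transport (T : IsTriple G K Γ) (f : V → V → ℝ≥0∞)
    (hf : ∀ φ ∈ Γ, ∀ u v, f (φ u) (φ v) = f u v) (o : V) : ∑' y, f o y = ∑' y, f y o := by
  set R : V → V → Prop := fun y z => ∃ ψ ∈ Γ, ψ y = o ∧ ψ o = z with hR
  set N : V → ℝ≥0∞ := fun y => ((stabOrbit Γ o y).ncard : ℝ≥0∞) with hN
  have hNpos : ∀ y, N y ≠ 0 := by
    intro y
    have := (ncard_pos (T.unimodular o y).1).mpr ⟨y, mem_stabOrbit_self Γ o y⟩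
    simp only [hN, ne_eq, Nat.cast_eq_zero]
    omega
  have hNtop : ∀ y, N y ≠ ⊤ := fun y => ENNReal.natCast_ne_top _
  -- first claim
  have c1 : ∀ y, ∑' z, (if R y z then (N y)⁻¹ else 0) = 1 := by
    intro y
    obtain ⟨ψ0, hψ0, h0⟩ := T.transitive y o
    have hset : {z | R y z} = ψ0 '' (stabOrbit Γ y o) := by
      ext z
      constructor
      · rintro ⟨ψ, hψ, h1, h2⟩
        refine ⟨ψ0⁻¹ z, ⟨ψ0⁻¹ * ψ, Γ.mul_mem (Γ.inv_mem hψ0) hψ, ?_, ?_⟩, ?_⟩
        · rw [RelIso.mul_apply, h1, ← h0, RelIso.inv_apply_self]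
        · rw [RelIso.mul_apply, h2]
        · rw [RelIso.apply_inv_self]
      · rintro ⟨w, ⟨χ, hχ, h1, h2⟩, rfl⟩
        refine ⟨ψ0 * χ, Γ.mul_mem hψ0 hχ, ?_, ?_⟩
        · rw [RelIso.mul_apply, h1, h0]
        · rw [RelIso.mul_apply, h2]
    have hfin : {z | R y z}.Finite := by
      rw [hset]; exact (T.unimodular y o).1.image _
    have hcard : ({z | R y z}.ncard : ℝ≥0∞) = N y := by
      rw [hset, ncard_image_of_injective _ ψ0.injective, (T.unimodular y o).2.2]
    rw [tsum_eq_sum (s := hfin.toFinset) (fun z hz => by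
      rw [Finite.mem_toFinset] at hz
      exact if_neg hz)]
    rw [Finset.sum_congr rfl (g := fun _ => (N y)⁻¹) (fun z hz => by
      rw [Finite.mem_toFinset] at hz
      exact if_pos hz), Finset.sum_const, nsmul_eq_mul, ← ncard_eq_toFinset_card _ hfin, hcard,
      ENNReal.mul_inv_cancel (hNpos y) (hNtop y)]
  -- second claim
  have c2 : ∀ z, ∑' y, (if R y z then (N y)⁻¹ else 0) = 1 := by
    intro z
    obtain ⟨ψ0, hψ0, h0⟩ := T.transitive o z
    set y0 := ψ0⁻¹ o with hy0
    have hset : {y | R y z} = stabOrbit Γ o y0 := by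
      ext y
      constructor
      · rintro ⟨ψ, hψ, h1, h2⟩
        refine ⟨ψ⁻¹ * ψ0, Γ.mul_mem (Γ.inv_mem hψ) hψ0, ?_, ?_⟩
        · rw [RelIso.mul_apply, h0, ← h2, RelIso.inv_apply_self]
        · rw [RelIso.mul_apply, hy0, RelIso.apply_inv_self, ← h1, RelIso.inv_apply_self]
      · rintro ⟨χ, hχ, h1, h2⟩
        refine ⟨ψ0 * χ⁻¹, Γ.mul_mem hψ0 (Γ.inv_mem hχ), ?_, ?_⟩
        · rw [RelIso.mul_apply, ← h2, RelIso.inv_apply_self, hy0, RelIso.apply_inv_self]
        · rw [RelIso.mul_apply]
          conv_lhs => rw [← h1]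
          rw [RelIso.inv_apply_self, h0]
    have hfin : {y | R y z}.Finite := by
      rw [hset]; exact (T.unimodular o y0).1
    have hcard : ({y | R y z}.ncard : ℝ≥0∞) = N y0 := by rw [hset]
    rw [tsum_eq_sum (s := hfin.toFinset) (fun y hy => by
      rw [Finite.mem_toFinset] at hy
      exact if_neg hy)]
    rw [Finset.sum_congr rfl (g := fun _ => (N y0)⁻¹) (fun y hy => by
      rw [Finite.mem_toFinset] at hy
      have hy' : R y z := hy
      rw [if_pos hy']
      have hmem : y ∈ stabOrbit Γ o y0 := by rw [← hset]; exact hy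
      simp only [hN]
      rw [stabOrbit_eq_of_mem hmem]), Finset.sum_const, nsmul_eq_mul,
      ← ncard_eq_toFinset_card _ hfin, hcard, ENNReal.mul_inv_cancel (hNpos y0) (hNtop y0)]
  calc ∑' y, f o y = ∑' y, f o y * ∑' z, (if R y z then (N y)⁻¹ else 0) := by
        refine tsum_congr fun y => ?_
        rw [c1 y, mul_one]
    _ = ∑' y, ∑' z, f z o * (if R y z then (N y)⁻¹ else 0) := by
        refine tsum_congr fun y => ?_
        rw [← ENNReal.tsum_mul_left]
        refine tsum_congr fun z => ?_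
        split_ifs with h
        · obtain ⟨ψ, hψ, h1, h2⟩ := h
          have := hf ψ hψ o y
          rw [h1, h2] at this
          rw [this]
        · simp
    _ = ∑' z, ∑' y, f z o * (if R y z then (N y)⁻¹ else 0) := ENNReal.tsum_comm
    _ = ∑' z, f z o := by
        refine tsum_congr fun z => ?_
        rw [ENNReal.tsum_mul_left, c2 z, mul_one]

theorem IsTriple.tsum_col (T : IsTriple G K Γ) (o : V) : ∑' x, K x o = 1 := by
  have := T.mass_transport (fun x y => K x y) (fun φ hφ u v => T.K_inv hφ u v) o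
  rw [← this]
  exact PMF.tsum_coe (K o)

theorem IsTriple.col_le (T : IsTriple G K Γ) (A : Finset V) (y : V) :
    ∑ x ∈ A, (K x y).toReal ≤ 1 := by
  rw [← ENNReal.toReal_sum (fun x _ => PMF.apply_ne_top (K x) y)]
  refine ENNReal.toReal_le_of_le_ofReal zero_le_one ?_
  rw [ENNReal.ofReal_one]
  exact (ENNReal.sum_le_tsum A).trans (T.tsum_col y).le

theorem IsTriple.accessible_inv (T : IsTriple G K Γ) {φ : G ≃g G} (hφ : φ ∈ Γ) {u v : V}
    (h : Accessible G K u v) : Accessible G K (φ u) (φ v) := by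
  unfold Accessible at h ⊢
  induction h with
  | refl => exact Relation.ReflTransGen.refl
  | @tail b c _ hbc ih =>
    refine ih.tail ⟨?_, ?_⟩
    · exact φ.map_rel_iff.mpr hbc.1
    · rw [T.K_inv hφ]; exact hbc.2

/-- Every finite nonempty set receives mass from its complement. -/
theorem IsTriple.exists_enter [DecidableEq V] (T : IsTriple G K Γ) (A : Finset V)
    (hA : A.Nonempty) : ∃ x ∉ A, ∃ y ∈ A, 0 < K x y := by
  by_contra hcon
  push Not at hcon
  obtain ⟨φ, hφ, u, hinf, hacc⟩ := T.infinitelyAccessible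
  obtain ⟨a, ha⟩ := hA
  obtain ⟨ψ, hψ, hψu⟩ := T.transitive u a
  -- the set `A` is closed backwards along accessible paths
  have hback : ∀ x y, Accessible G K y x → y ∈ A → x ∈ A := by
    intro x y h hy
    unfold Accessible at h
    induction h using Relation.ReflTransGen.head_induction_on with
    | refl => exact hy
    | @head b c hbc _ ih =>
      by_contra hb
      exact absurd (hcon b hb c ih) (not_le.mpr hbc.2)
  have hstep : ∀ n : ℕ, Accessible G K ((φ ^ n) u) ((φ ^ (n + 1)) u) := by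
    intro n
    have := T.accessible_inv (Γ.pow_mem hφ n) hacc
    rwa [← RelIso.mul_apply, ← pow_succ] at this
  have hall : ∀ n : ℕ, ψ ((φ ^ n) u) ∈ A := by
    intro n
    induction n with
    | zero => simpa [hψu] using ha
    | succ n ih =>
      exact hback _ _ (T.accessible_inv hψ (hstep n)) ih
  have hinf' : (Set.range fun n : ℕ => ψ ((φ ^ n) u)).Infinite := by
    have : (Set.range fun n : ℕ => ψ ((φ ^ n) u)) = ψ '' (Set.range fun n : ℕ => (φ ^ n) u) := by
      rw [← Set.range_comp]; rfl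
    rw [this]
    exact hinf.image ψ.injective.injOn
  exact hinf' (A.finite_toSet.subset (by rintro _ ⟨n, rfl⟩; exact hall n))

/-- The flow out of every finite nonempty set is at least some `κ > 0`. -/
theorem IsTriple.flow [DecidableEq V] (T : IsTriple G K Γ) : ∃ κ : ℝ, 0 < κ ∧
    ∀ A : Finset V, A.Nonempty → κ ≤ A.card - ∑ x ∈ A, ∑ y ∈ A, (K x y).toReal := by
  obtain ⟨o⟩ : Nonempty V := T.infinite.nonempty
  -- minimum of the positive values `K o y`
  have hsuppfin : {y | 0 < K o y}.Finite := by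
    refine (T.locallyFinite o).subset fun y hy => ?_
    by_contra hadj
    have := T.supported o y hadj
    simp only [mem_ofPred_eq] at hy
    rw [this] at hy
    exact lt_irrefl _ hy
  have hne : {y | 0 < K o y}.Nonempty := by
    obtain ⟨y, hy⟩ := (K o).support_nonempty
    exact ⟨y, pos_iff_ne_zero.mpr ((PMF.mem_support_iff _ _).mp hy)⟩
  obtain ⟨y0, hy0, hmin⟩ := hsuppfin.exists_minimalFor (fun y => K o y) _ hne
  have hmin' : ∀ y, 0 < K o y → K o y0 ≤ K o y := by
    intro y hy
    rcases le_total (K o y) (K o y0) with h | h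
    · exact hmin hy h
    · exact h
  have hall : ∀ x y, 0 < K x y → K o y0 ≤ K x y := by
    intro x y hxy
    obtain ⟨φ, hφ, h⟩ := T.transitive x o
    rw [← T.K_inv hφ x y, h] at hxy ⊢
    exact hmin' _ hxy
  refine ⟨(K o y0).toReal, ENNReal.toReal_pos hy0.ne' (PMF.apply_ne_top _ _), ?_⟩
  intro A hA
  obtain ⟨x, hx, y, hy, hxy⟩ := T.exists_enter A hA
  -- bound the column sums
  have h1 : ∀ z ∈ A, ∑ w ∈ A, (K w z).toReal ≤ 1 := fun z _ => T.col_le A z
  have h2 : ∑ w ∈ A, (K w y).toReal ≤ 1 - (K o y0).toReal := by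
    have h3 := T.col_le (insert x A) y
    rw [Finset.sum_insert hx] at h3
    have h4 : (K o y0).toReal ≤ (K x y).toReal :=
      ENNReal.toReal_mono (PMF.apply_ne_top _ _) (hall x y hxy)
    linarith
  rw [Finset.sum_comm]
  have h5 : ∑ z ∈ A, ∑ w ∈ A, (K w z).toReal ≤ ∑ z ∈ A, (1 - if z = y then (K o y0).toReal else 0) := by
    refine Finset.sum_le_sum fun z hz => ?_
    split_ifs with hzy
    · rw [hzy]; exact h2
    · rw [sub_zero]; exact h1 z hz
  rw [Finset.sum_sub_distrib, Finset.sum_ite_eq' A y, if_pos hy] at h5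
  simp only [Finset.sum_const, nsmul_eq_mul, mul_one] at h5
  linarith

end MTP

section Countable

variable {V : Type*} {G : SimpleGraph V} {K : V → PMF V} {Γ : Subgroup (G ≃g G)}

/-- `Near n x y`: `y` is reached from `x` by `n` steps, each along an edge or staying put. -/
def Near (G : SimpleGraph V) : ℕ → V → V → Prop
  | 0, x, y => x = y
  | n + 1, x, y => ∃ z, Near G n x z ∧ (z = y ∨ G.Adj z y)

theorem near_finite_right (hG : ∀ v, (G.neighborSet v).Finite) (n : ℕ) (x : V) :
    {y | Near G n x y}.Finite := by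
  induction n with
  | zero => simp only [Near]; exact (Set.finite_singleton x).subset fun y hy => by
              simp only [mem_ofPred_eq] at hy; simp [hy]
  | succ n ih =>
    have : {y | Near G (n + 1) x y} ⊆ ⋃ z ∈ {z | Near G n x z}, ({z} ∪ G.neighborSet z) := by
      rintro y ⟨z, hz, h⟩
      simp only [mem_iUnion]
      refine ⟨z, hz, ?_⟩
      rcases h with h | h
      · left; simp [h]
      · right; exact h
    exact (ih.biUnion fun z _ => (Set.finite_singleton z).union (hG z)).subset this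

theorem near_finite_left (hG : ∀ v, (G.neighborSet v).Finite) (n : ℕ) (y : V) :
    {x | Near G n x y}.Finite := by
  induction n generalizing y with
  | zero => simp only [Near]; exact (Set.finite_singleton y).subset fun x hx => by
              simp only [mem_ofPred_eq] at hx; simp [hx]
  | succ n ih =>
    have : {x | Near G (n + 1) x y} ⊆ ⋃ z ∈ ({y} ∪ G.neighborSet y), {x | Near G n x z} := by
      rintro x ⟨z, hz, h⟩
      simp only [mem_iUnion]
      refine ⟨z, ?_, hz⟩
      rcases h with h | h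
      · left; simp [h]
      · right; exact h.symm
    exact (((Set.finite_singleton y).union (hG y)).biUnion fun z _ => ih z).subset this

theorem IsTriple.countable (T : IsTriple G K Γ) : Countable V := by
  obtain ⟨o⟩ : Nonempty V := T.infinite.nonempty
  have hcov : (⋃ n : ℕ, {y | Near G n o y}) = univ := by
    refine eq_univ_of_forall fun y => ?_
    obtain ⟨w⟩ := T.connected.preconnected o y
    have hreach : ∀ {a b : V}, G.Walk a b → (∃ n, Near G n o a) → ∃ n, Near G n o b := by
      intro a b w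
      induction w with
      | nil => exact id
      | cons h _ ih =>
        rintro ⟨n, hn⟩
        exact ih ⟨n + 1, _, hn, Or.inr h⟩
    obtain ⟨n, hn⟩ := hreach w ⟨0, rfl⟩
    exact mem_iUnion.mpr ⟨n, hn⟩
  rw [← Set.countable_univ_iff, ← hcov]
  exact Set.countable_iUnion fun n => (near_finite_right T.locallyFinite n o).countable

end Countable

end Pool.Agent.Lib.MP_971c94_pr
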