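import Pool.Agent.Lib.MP_971c94_pr.Det
import Pool.Agent.Lib.MP_971c94_pr.Decouple
import Pool.Agent.Lib.MP_971c94_pr.Transport

/-!
# Measurability, invariance of the law, and first consequences of mass transport
-/

open MeasureTheory Set Function
open scoped ENNReal unitInterval

namespace Pool.Agent.Lib.MP_971c94_pr

section Meas

variable {Ω V : Type*} [MeasurableSpace Ω] [Countable V]

theorem measurable_evo {Q : Ω → ℕ → V → V} {B : Ω → ℕ → V → V → Prop} {S0 : Ω → State V}
    (hQ : ∀ n x v, Measurable fun ω => Q ω n x = v)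
    (hB : ∀ n x y, Measurable fun ω => B ω n x y)
    (hC : ∀ x, Measurable fun ω => x ∈ (S0 ω).cars)
    (hS : ∀ v, Measurable fun ω => v ∈ (S0 ω).spots) (n : ℕ) :
    (∀ x, Measurable fun ω => x ∈ (evo (Q ω) (B ω) (S0 ω) n).cars) ∧
    (∀ v, Measurable fun ω => v ∈ (evo (Q ω) (B ω) (S0 ω) n).spots) := by
  induction n with
  | zero => exact ⟨hC, hS⟩
  | succ n ih =>
    obtain ⟨ih1, ih2⟩ := ih
    refine ⟨fun x => ?_, fun v => ?_⟩
    · have : (fun ω => x ∈ (evo (Q ω) (B ω) (S0 ω) (n + 1)).cars) =
          fun ω => x ∈ (evo (Q ω) (B ω) (S0 ω) n).cars ∧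
            ¬ ((∃ w, Q ω n x = w ∧ w ∈ (evo (Q ω) (B ω) (S0 ω) n).spots) ∧
              ∀ y, y ∈ (evo (Q ω) (B ω) (S0 ω) n).cars → (∃ w, Q ω n y = w ∧ Q ω n x = w) →
                y ≠ x → B ω n x y) := by
        funext ω
        simp only [evo, State.step, mem_ofPred_eq, eq_iff_iff]
        constructor
        · rintro ⟨h1, h2⟩
          refine ⟨h1, fun ⟨⟨w, hw, hw'⟩, h4⟩ => h2 ⟨hw ▸ hw', fun y hy hyx hne => ?_⟩⟩
          exact h4 y hy ⟨_, hyx, rfl⟩ hne
        · rintro ⟨h1, h2⟩
          refine ⟨h1, fun ⟨h3, h4⟩ => h2 ⟨⟨_, rfl, h3⟩, fun y hy ⟨w, hw, hw'⟩ hne => ?_⟩⟩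
          exact h4 y hy (hw.trans hw'.symm) hne
      rw [this]
      refine (ih1 x).and (Measurable.not ?_)
      refine Measurable.and (Measurable.exists fun w => (hQ n x w).and (ih2 w)) ?_
      refine Measurable.forall fun y => (ih1 y).imp ?_
      refine Measurable.imp (Measurable.exists fun w => (hQ n y w).and (hQ n x w)) ?_
      exact Measurable.imp measurable_const (hB n x y)
    · have : (fun ω => v ∈ (evo (Q ω) (B ω) (S0 ω) (n + 1)).spots) =
          fun ω => v ∈ (evo (Q ω) (B ω) (S0 ω) n).spots ∧
            ∀ x, x ∈ (evo (Q ω) (B ω) (S0 ω) n).cars → ¬ (Q ω n x = v) := by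
        funext ω
        simp only [evo, State.step, mem_ofPred_eq, ne_eq]
      rw [this]
      exact (ih2 v).and (Measurable.forall fun x => (ih1 x).imp (hQ n x v).not)

end Meas

section Coord

variable {V : Type*} [MeasurableSpace V] [DiscreteMeasurableSpace V]

theorem measurable_coord_eq (x : V) (i : ℕ × V) (v : V) :
    Measurable fun ω : V → Site V => (ω x).2.1 i = v := by
  have h1 : Measurable fun ω : V → Site V => (ω x).2.1 i := by fun_prop
  exact (Measurable.of_discrete (f := fun a : V => a = v)).comp h1

omit [DiscreteMeasurableSpace V] in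
theorem measurable_prio_lt (n : ℕ) (x y : V) :
    Measurable fun ω : V → Site V => (ω x).2.2 n < (ω y).2.2 n := by
  rw [← measurableSet_setOfPred]
  exact measurableSet_lt (by fun_prop) (by fun_prop)

omit [DiscreteMeasurableSpace V] in
theorem measurable_prio_eq (n : ℕ) (x y : V) :
    Measurable fun ω : V → Site V => (ω x).2.2 n = (ω y).2.2 n := by
  rw [← measurableSet_setOfPred]
  exact measurableSet_eq_fun (by fun_prop) (by fun_prop)

omit [DiscreteMeasurableSpace V] in
theorem measurable_car (x : V) (b : Bool) :
    Measurable fun ω : V → Site V => (ω x).1 = b := by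
  have h1 : Measurable fun ω : V → Site V => (ω x).1 := by fun_prop
  exact (Measurable.of_discrete (f := fun a : Bool => a = b)).comp h1

theorem measurable_pos_eq [Countable V] (x : V) (n : ℕ) (v : V) :
    Measurable fun ω : V → Site V => pos ω x n = v := by
  induction n generalizing v with
  | zero => exact (measurable_const : Measurable fun _ : V → Site V => x = v)
  | succ n ih =>
    have : (fun ω : V → Site V => pos ω x (n + 1) = v) =
        fun ω => ∃ u, pos ω x n = u ∧ (ω x).2.1 (n, u) = v := by
      funext ω
      simp [pos]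
    rw [this]
    exact Measurable.exists fun u => (ih u).and (measurable_coord_eq x (n, u) v)

theorem measurable_state [Countable V] (n : ℕ) :
    (∀ x, Measurable fun ω : V → Site V => x ∈ (state ω n).cars) ∧
    (∀ v, Measurable fun ω : V → Site V => v ∈ (state ω n).spots) := by
  refine measurable_evo (fun n x v => measurable_pos_eq x (n + 1) v)
    (fun n x y => measurable_prio_lt n x y) (fun x => ?_) (fun v => ?_) n
  · exact measurable_car x true
  · exact measurable_car v false

theorem measurable_arrives [Countable V] (n : ℕ) (x v : V) :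
    Measurable fun ω : V → Site V => Arrives ω n x v :=
  ((measurable_state n).1 x).and (measurable_pos_eq x (n + 1) v)

theorem measurable_visits [Countable V] (v : V) : Measurable (visits v) := by
  unfold visits
  refine Measurable.tsum fun n => Measurable.tsum fun x => ?_
  exact Measurable.ite (measurableSet_setOfPred.mpr (measurable_arrives n x v))
    measurable_const measurable_const

end Coord

section Inv

variable {V : Type*} [MeasurableSpace V] [DiscreteMeasurableSpace V]

instance instProbWalkLaw (K : V → PMF V) : IsProbabilityMeasure (walkLaw K) := by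
  unfold walkLaw; infer_instance

instance instProbSiteLaw (K : V → PMF V) (p : I) : IsProbabilityMeasure (siteLaw K p) := by
  unfold siteLaw; infer_instance

instance instProbLaw (K : V → PMF V) (p : I) : IsProbabilityMeasure (law K p) := by
  unfold law; infer_instance

variable {G : SimpleGraph V} {K : V → PMF V} {Γ : Subgroup (G ≃g G)}

/-- The action of an automorphism on instructions. -/
def actWalk (φ : G ≃g G) (ζ : ℕ × V → V) : ℕ × V → V :=
  fun i => φ (ζ (i.1, φ⁻¹ i.2))

/-- The action of an automorphism on the input. -/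
def act (φ : G ≃g G) (ω : V → Site V) : V → Site V :=
  fun x => ((ω (φ⁻¹ x)).1, (actWalk φ (ω (φ⁻¹ x)).2.1, (ω (φ⁻¹ x)).2.2))

theorem measurable_actWalk (φ : G ≃g G) : Measurable (actWalk φ) := by
  unfold actWalk
  refine measurable_pi_lambda _ fun i => ?_
  exact (Measurable.of_discrete (f := φ)).comp (measurable_pi_apply _)

theorem measurable_act (φ : G ≃g G) : Measurable (act φ) := by
  unfold act
  refine measurable_pi_lambda _ fun x => ?_
  exact (measurable_fst.comp (measurable_pi_apply _)).prodMk
    (((measurable_actWalk φ).comp (measurable_fst.comp (measurable_snd.comp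
      (measurable_pi_apply _)))).prodMk
      (measurable_snd.comp (measurable_snd.comp (measurable_pi_apply _))))

theorem PMF_map_inv (T : IsTriple G K Γ) {φ : G ≃g G} (hφ : φ ∈ Γ) (v : V) :
    ((K (φ⁻¹ v)).toMeasure).map φ = (K v).toMeasure := by
  have : Countable V := T.countable
  refine Measure.ext_of_singleton fun w => ?_
  rw [Measure.map_apply Measurable.of_discrete (measurableSet_singleton w)]
  have h1 : φ ⁻¹' {w} = {φ⁻¹ w} := by
    ext z
    simp only [mem_preimage, mem_singleton_iff]
    constructor
    · rintro rfl; rw [RelIso.inv_apply_self]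
    · rintro rfl; rw [RelIso.apply_inv_self]
  rw [h1, PMF.toMeasure_apply_singleton _ _ (measurableSet_singleton _),
    PMF.toMeasure_apply_singleton _ _ (measurableSet_singleton _)]
  exact T.K_inv (Γ.inv_mem hφ) v w

theorem map_actWalk (T : IsTriple G K Γ) {φ : G ≃g G} (hφ : φ ∈ Γ) :
    (walkLaw K).map (actWalk φ) = walkLaw K := by
  have hinj : Injective fun i : ℕ × V => (i.1, φ⁻¹ i.2) := by
    rintro ⟨a, b⟩ ⟨c, d⟩ h
    simp only [Prod.mk.injEq] at h
    rw [Prod.mk.injEq]
    exact ⟨h.1, (φ⁻¹).injective h.2⟩
  have h1 : actWalk φ = (fun (ζ : ℕ × V → V) i => φ (ζ i)) ∘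
      (fun (ζ : ℕ × V → V) i => ζ (i.1, φ⁻¹ i.2)) := rfl
  rw [h1, ← Measure.map_map]
  · unfold walkLaw
    have h2 := Measure.map_infinitePi_infinitePi_of_inj
      (P := fun i : ℕ × V => (K i.2).toMeasure) hinj
    rw [h2, Measure.infinitePi_map_pi (fun i : ℕ × V => (K (φ⁻¹ i.2)).toMeasure)
        (f := fun _ => φ) (fun _ => Measurable.of_discrete)]
    congr 1
    funext i
    exact PMF_map_inv T hφ i.2
  · exact measurable_pi_lambda _ fun i =>
      (Measurable.of_discrete (f := φ)).comp (measurable_pi_apply _)
  · exact measurable_pi_lambda _ fun i => measurable_pi_apply _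

theorem map_act (T : IsTriple G K Γ) {φ : G ≃g G} (hφ : φ ∈ Γ) (p : I) :
    (law K p).map (act φ) = law K p := by
  have hinj : Injective fun x : V => φ⁻¹ x := (φ⁻¹).injective
  set g : Site V → Site V := fun c => (c.1, (actWalk φ c.2.1, c.2.2)) with hg
  have hgm : Measurable g := measurable_fst.prodMk
    (((measurable_actWalk φ).comp (measurable_fst.comp measurable_snd)).prodMk
      (measurable_snd.comp measurable_snd))
  have h1 : act φ = (fun (ω : V → Site V) x => g (ω x)) ∘
      (fun (ω : V → Site V) x => ω (φ⁻¹ x)) := rfl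
  have h2 : (siteLaw K p).map g = siteLaw K p := by
    have h3 : g = Prod.map id (Prod.map (actWalk φ) id) := by
      funext c
      rfl
    unfold siteLaw
    rw [h3, ← Measure.map_prod_map _ _ measurable_id
      ((measurable_actWalk φ).prodMap measurable_id),
      ← Measure.map_prod_map _ _ (measurable_actWalk φ) measurable_id, Measure.map_id,
      Measure.map_id, map_actWalk T hφ]
  rw [h1, ← Measure.map_map]
  · unfold law
    have h4 := Measure.map_infinitePi_infinitePi_of_inj (P := fun _ : V => siteLaw K p) hinj
    rw [h4, Measure.infinitePi_map_pi (fun _ : V => siteLaw K p) (f := fun _ => g)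
      (fun _ => hgm), h2]
  · exact measurable_pi_lambda _ fun i => hgm.comp (measurable_pi_apply _)
  · exact measurable_pi_lambda _ fun i => measurable_pi_apply _

omit [MeasurableSpace V] [DiscreteMeasurableSpace V] in
theorem pos_act (φ : G ≃g G) (ω : V → Site V) (x : V) (n : ℕ) :
    pos (act φ ω) (φ x) n = φ (pos ω x n) := by
  induction n with
  | zero => rfl
  | succ n ih =>
    simp only [pos]
    rw [ih]
    simp only [act, actWalk, RelIso.inv_apply_self]

omit [MeasurableSpace V] [DiscreteMeasurableSpace V] in
theorem state_act (φ : G ≃g G) (ω : V → Site V) (n : ℕ) :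
    (∀ x, φ x ∈ (state (act φ ω) n).cars ↔ x ∈ (state ω n).cars) ∧
    (∀ v, φ v ∈ (state (act φ ω) n).spots ↔ v ∈ (state ω n).spots) := by
  induction n with
  | zero =>
    refine ⟨fun x => ?_, fun x => ?_⟩
    · simp only [state, evo, initial, act, mem_ofPred_eq, RelIso.inv_apply_self]
    · simp only [state, evo, initial, act, mem_ofPred_eq, RelIso.inv_apply_self]
  | succ n ih =>
    obtain ⟨ih1, ih2⟩ := ih
    have hprio : ∀ x, (act φ ω (φ x)).2.2 n = (ω x).2.2 n := fun x => by
      simp only [act, RelIso.inv_apply_self]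
    have hsurj : ∀ y : V, ∃ x, φ x = y := φ.surjective
    refine ⟨fun x => ?_, fun v => ?_⟩
    · simp only [state, evo, State.step, mem_ofPred_eq]
      simp only [state] at ih1 ih2
      rw [ih1 x, pos_act, ih2]
      refine and_congr_right fun _ => not_congr (and_congr_right fun _ => ?_)
      constructor
      · intro h y hy hyx hne
        have := h (φ y) ((ih1 y).mpr hy) (by rw [pos_act, hyx]) (fun h' => hne (φ.injective h'))
        rwa [hprio, hprio] at this
      · intro h y' hy hyx hne
        obtain ⟨y, rfl⟩ := hsurj y'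
        rw [hprio, hprio]
        refine h y ((ih1 y).mp hy) ?_ (fun h' => hne (h' ▸ rfl))
        rw [pos_act] at hyx
        exact φ.injective hyx
    · simp only [state, evo, State.step, mem_ofPred_eq]
      simp only [state] at ih1 ih2
      rw [ih2 v]
      refine and_congr_right fun _ => ?_
      constructor
      · intro h x hx hxv
        exact h (φ x) ((ih1 x).mpr hx) (by rw [pos_act, hxv])
      · intro h x' hx hxv
        obtain ⟨x, rfl⟩ := hsurj x'
        rw [pos_act] at hxv
        exact h x ((ih1 x).mp hx) (φ.injective hxv)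

end Inv

section Consequences

variable {V : Type*} [MeasurableSpace V] [DiscreteMeasurableSpace V]
  {G : SimpleGraph V} {K : V → PMF V} {Γ : Subgroup (G ≃g G)}

/-- An event that is invariant under the diagonal action has an invariant probability. -/
theorem prob_inv (T : IsTriple G K Γ) (p : I) (E : (V → Site V) → V → V → Prop)
    (hE : ∀ x v, Measurable fun ω => E ω x v)
    (hinv : ∀ φ : G ≃g G, ∀ ω x v, E (act φ ω) (φ x) (φ v) ↔ E ω x v)
    {φ : G ≃g G} (hφ : φ ∈ Γ) (x v : V) :
    law K p {ω | E ω (φ x) (φ v)} = law K p {ω | E ω x v} := by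
  conv_lhs => rw [← map_act T hφ p]
  rw [Measure.map_apply (measurable_act φ) (measurableSet_setOfPred.mpr (hE _ _))]
  congr 1
  ext ω
  exact hinv φ ω x v

omit [MeasurableSpace V] [DiscreteMeasurableSpace V] in
theorem arrives_act (φ : G ≃g G) (ω : V → Site V) (n : ℕ) (x v : V) :
    Arrives (act φ ω) n (φ x) (φ v) ↔ Arrives ω n x v := by
  unfold Arrives
  rw [(state_act φ ω n).1 x, pos_act]
  exact and_congr_right fun _ => φ.injective.eq_iff

open Classical in
/-- The expected number of visits is the sum over `n` of the probability that the car of the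
vertex is unparked at time `n`. -/
theorem lintegral_visits (T : IsTriple G K Γ) (p : I) (v : V) :
    ∫⁻ ω, visits v ω ∂(law K p) = ∑' n : ℕ, law K p {ω | v ∈ (state ω n).cars} := by
  have : Countable V := T.countable
  unfold visits
  have hm : ∀ n x y, Measurable fun ω : V → Site V => if Arrives ω n x y then (1 : ℝ≥0∞) else 0 :=
    fun n x y => Measurable.ite (measurableSet_setOfPred.mpr (measurable_arrives n x y))
      measurable_const measurable_const
  have hp : ∀ n x y, ∫⁻ ω, (if Arrives ω n x y then (1 : ℝ≥0∞) else 0) ∂(law K p) =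
      law K p {ω | Arrives ω n x y} := by
    intro n x y
    rw [← lintegral_indicator_one (measurableSet_setOfPred.mpr (measurable_arrives n x y))]
    rfl
  rw [lintegral_tsum fun n => (Measurable.tsum fun x => hm n x v).aemeasurable]
  refine tsum_congr fun n => ?_
  rw [lintegral_tsum fun x => (hm n x v).aemeasurable]
  simp_rw [hp]
  rw [← T.mass_transport (fun x y => law K p {ω | Arrives ω n x y}) (fun φ hφ x y =>
    prob_inv T p (fun ω x y => Arrives ω n x y) (fun x y => measurable_arrives n x y)
      (fun φ ω x y => arrives_act φ ω n x y) hφ x y) v]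
  simp_rw [← hp]
  rw [← lintegral_tsum fun x => (hm n v x).aemeasurable]
  rw [← lintegral_indicator_one (measurableSet_setOfPred.mpr ((measurable_state n).1 v))]
  refine lintegral_congr fun ω => ?_
  rw [tsum_eq_single (pos ω v (n + 1))]
  · simp only [Arrives, and_true, indicator, mem_ofPred_eq, Pi.one_apply]
  · intro x hx
    rw [if_neg]
    rintro ⟨_, h⟩
    exact hx h.symm

end Consequences

end Pool.Agent.Lib.MP_971c94_pr
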