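import Pool.Agent.Lib.MP_971c94_pr.Nice
import Pool.Agent.Lib.MP_971c94_pr.Exit

/-!
# The law of the range of one walk
-/

open MeasureTheory Set Function
open scoped ENNReal unitInterval

namespace Pool.Agent.Lib.MP_971c94_pr

section Path

variable {V : Type*}

/-- The path that follows the instructions `ζ` from `x`. -/
def path (ζ : ℕ × V → V) (x : V) : ℕ → V
  | 0 => x
  | n + 1 => ζ (n, path ζ x n)

theorem pos_eq_path (ω : V → Site V) (x : V) (n : ℕ) : pos ω x n = path (ω x).2.1 x n := by
  induction n with
  | zero => rfl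
  | succ n ih => simp only [pos, path]; rw [ih]

variable [DecidableEq V]

/-- The set of vertices visited up to time `t`. -/
def rng (ζ : ℕ × V → V) (x : V) (t : ℕ) : Finset V := (Finset.range (t + 1)).image (path ζ x)

theorem rng_succ (ζ : ℕ × V → V) (x : V) (t : ℕ) :
    rng ζ x (t + 1) = insert (ζ (t, path ζ x t)) (rng ζ x t) := by
  unfold rng
  rw [Finset.range_add_one (n := t + 1), Finset.image_insert]
  rfl

theorem path_update (ζ : ℕ × V → V) (x : V) (t : ℕ) (v z : V) (n : ℕ) (hn : n ≤ t) :
    path (update ζ (t, v) z) x n = path ζ x n := by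
  induction n with
  | zero => rfl
  | succ n ih =>
    simp only [path]
    rw [ih (by omega), update_of_ne]
    intro h
    rw [Prod.mk.injEq] at h
    omega

theorem rng_update (ζ : ℕ × V → V) (x : V) (t : ℕ) (v z : V) :
    rng (update ζ (t, v) z) x t = rng ζ x t := by
  unfold rng
  refine Finset.image_congr fun n hn => ?_
  rw [Finset.mem_coe, Finset.mem_range] at hn
  exact path_update ζ x t v z n (by omega)

/-- One step of the walk, keeping track of the set of visited vertices. -/
noncomputable def kop (K : V → PMF V) (g : Finset V → V → ℝ≥0∞) (S : Finset V) (y : V) : ℝ≥0∞ :=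
  ∑' z, K y z * g (insert z S) z

theorem occ_eq_sum (K : V → PMF V) (w : ℕ → ℝ≥0∞) (n : ℕ) (S : Finset V) (y : V) :
    occ K w n S y = ∑ t ∈ Finset.range n, ((kop K)^[t] fun S _ => w S.card) S y := by
  induction n generalizing S y with
  | zero => simp [occ]
  | succ n ih =>
    rw [Finset.sum_range_succ']
    simp only [occ, iterate_succ_apply', iterate_zero, id_eq]
    rw [add_comm]
    congr 1
    simp_rw [ih]
    unfold kop
    simp_rw [Finset.mul_sum]
    rw [Summable.tsum_finsetSum fun i _ => ENNReal.summable]

variable [MeasurableSpace V] [DiscreteMeasurableSpace V] [Countable V]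

omit [DecidableEq V] in
theorem measurable_path (x : V) (n : ℕ) :
    Measurable fun ζ : ℕ × V → V => path ζ x n := by
  have h : ∀ v, Measurable fun ζ : ℕ × V → V => path ζ x n = v := by
    intro v
    have h1 := (measurable_pos_eq x n v).comp
      (measurable_pi_lambda (fun (ζ : ℕ × V → V) (_ : V) => ((true, (ζ, fun _ => 0)) : Site V))
        fun _ => measurable_const.prodMk (measurable_id.prodMk measurable_const))
    simpa [Function.comp_def, pos_eq_path] using h1
  refine measurable_to_countable' fun v => ?_
  exact measurableSet_setOfPred.mpr (h v)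

theorem measurable_rng (x : V) (t : ℕ) (g : Finset V → V → ℝ≥0∞) :
    Measurable fun ζ : ℕ × V → V => g (rng ζ x t) (path ζ x t) := by
  have h1 : Measurable fun (ζ : ℕ × V → V) (i : Fin (t + 1)) => path ζ x i :=
    measurable_pi_lambda _ fun i => measurable_path x i
  have h2 : Measurable fun y : Fin (t + 1) → V => g (Finset.univ.image y) (y (Fin.last t)) :=
    Measurable.of_discrete
  have h3 : (fun ζ : ℕ × V → V => g (rng ζ x t) (path ζ x t)) =
      (fun y : Fin (t + 1) → V => g (Finset.univ.image y) (y (Fin.last t))) ∘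
        fun (ζ : ℕ × V → V) (i : Fin (t + 1)) => path ζ x i := by
    funext ζ
    have : rng ζ x t = Finset.univ.image fun i : Fin (t + 1) => path ζ x i := by
      ext v
      simp only [rng, Finset.mem_image, Finset.mem_range, Finset.mem_univ, true_and,
        Fin.exists_iff]
      constructor
      · rintro ⟨a, ha, h⟩
        exact ⟨a, ha, h⟩
      · rintro ⟨a, ha, h⟩
        exact ⟨a, ha, h⟩
    simp only [comp_apply, Fin.val_last]
    rw [this]
  rw [h3]
  exact h2.comp h1

/-- The Markov property. -/
theorem markov_step (K : V → PMF V) (x : V) (t : ℕ) (g : Finset V → V → ℝ≥0∞) :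
    ∫⁻ ζ, g (rng ζ x (t + 1)) (path ζ x (t + 1)) ∂(walkLaw K) =
      ∫⁻ ζ, kop K g (rng ζ x t) (path ζ x t) ∂(walkLaw K) := by
  have hsum : ∀ ζ : ℕ × V → V, g (rng ζ x (t + 1)) (path ζ x (t + 1)) =
      ∑' v, if path ζ x t = v then g (insert (ζ (t, v)) (rng ζ x t)) (ζ (t, v)) else 0 := by
    intro ζ
    rw [tsum_eq_single (path ζ x t)]
    · rw [if_pos rfl, rng_succ]
      rfl
    · intro v hv
      rw [if_neg (Ne.symm hv)]
  have hsum' : ∀ ζ : ℕ × V → V, kop K g (rng ζ x t) (path ζ x t) =
      ∑' v, if path ζ x t = v then kop K g (rng ζ x t) v else 0 := by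
    intro ζ
    rw [tsum_eq_single (path ζ x t)]
    · rw [if_pos rfl]
    · intro v hv
      rw [if_neg (Ne.symm hv)]
  simp_rw [hsum, hsum']
  have hset : ∀ v, MeasurableSet {ζ : ℕ × V → V | path ζ x t = v} := fun v =>
    (measurable_path x t) (measurableSet_singleton v)
  have hm1 : ∀ v, Measurable fun ζ : ℕ × V → V =>
      if path ζ x t = v then g (insert (ζ (t, v)) (rng ζ x t)) (ζ (t, v)) else 0 := by
    intro v
    refine Measurable.ite (hset v) ?_ measurable_const
    have h1 : (fun ζ : ℕ × V → V => g (insert (ζ (t, v)) (rng ζ x t)) (ζ (t, v))) =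
        fun ζ => ∑' z, if ζ (t, v) = z then g (insert z (rng ζ x t)) z else 0 := by
      funext ζ
      rw [tsum_eq_single (ζ (t, v))]
      · rw [if_pos rfl]
      · intro z hz
        rw [if_neg (Ne.symm hz)]
    rw [h1]
    refine Measurable.tsum fun z => Measurable.ite ?_ (measurable_rng x t fun S _ => g (insert z S) z)
      measurable_const
    have hh : Measurable fun ζ : ℕ × V → V => ζ (t, v) := measurable_pi_apply _
    exact hh (measurableSet_singleton z)
  have hm2 : ∀ v, Measurable fun ζ : ℕ × V → V =>
      if path ζ x t = v then kop K g (rng ζ x t) v else 0 := fun v =>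
    Measurable.ite (hset v) (measurable_rng x t fun S _ => kop K g S v) measurable_const
  rw [lintegral_tsum fun v => (hm1 v).aemeasurable, lintegral_tsum fun v => (hm2 v).aemeasurable]
  refine tsum_congr fun v => ?_
  unfold walkLaw
  rw [lintegral_update (fun i : ℕ × V => (K i.2).toMeasure) (hm1 v) (t, v)]
  refine lintegral_congr fun ζ => ?_
  simp only [path_update ζ x t v _ t le_rfl, rng_update, update_self]
  split_ifs with h
  · rw [lintegral_countable']
    unfold kop
    refine tsum_congr fun z => ?_
    rw [PMF.toMeasure_apply_singleton _ _ (measurableSet_singleton _), mul_comm]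
  · simp

theorem lintegral_rng (K : V → PMF V) (x : V) (t : ℕ) (g : Finset V → V → ℝ≥0∞) :
    ∫⁻ ζ, g (rng ζ x t) (path ζ x t) ∂(walkLaw K) = ((kop K)^[t] g) {x} x := by
  induction t generalizing g with
  | zero =>
    have : ∀ ζ : ℕ × V → V, rng ζ x 0 = {x} := fun ζ => by
      simp [rng, path]
    simp [this, path]
  | succ t ih =>
    rw [markov_step, ih, iterate_succ_apply]

theorem sum_lintegral_rng (K : V → PMF V) (x : V) (w : ℕ → ℝ≥0∞) (n : ℕ) :
    ∑ t ∈ Finset.range n, ∫⁻ ζ, w (rng ζ x t).card ∂(walkLaw K) = occ K w n {x} x := by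
  rw [occ_eq_sum]
  refine Finset.sum_congr rfl fun t _ => ?_
  exact lintegral_rng K x t fun S _ => w S.card

end Path

end Pool.Agent.Lib.MP_971c94_pr
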