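import Pool.Agent.Lib.MP_971c94_pr.Internal
import Pool.Agent.Lib.MP_971c94_pr.Walk

/-!
# The tagged car, and the proof that the expected number of visits is finite
-/

open MeasureTheory Set Function
open scoped ENNReal unitInterval

namespace Pool.Agent.Lib.MP_971c94_pr

section Tagged

variable {V : Type*} [DecidableEq V]

/-- If the tagged car of `o` is still unparked at time `t`, then the sites its walk has visited
contain no free spot of the process in which the input at `o` is any other car. -/
theorem tagged {G : SimpleGraph V} (hG : ∀ v, (G.neighborSet v).Finite) {e : V → ℕ}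
    (he : Injective e) (ω : V → Site V) (o : V) (c : Site V) (hc : c.1 = true)
    (ho : (ω o).1 = true) (t : ℕ) (h : o ∈ (istate G e (update ω o c) t).cars) :
    ∀ m < t, safeWalk G c.2.1 o (m + 1) ∉ (istate G e ω t).spots := by
  have h1 : initial (update ω o c) =
      ⟨insert o (neutral (update ω o c) o).cars, (neutral (update ω o c) o).spots⟩ :=
    initial_of_car (by rw [update_self]; exact hc)
  have hmem : o ∉ (neutral (update ω o c) o).cars := fun h' => h'.1 rfl
  unfold istate ievo at h
  rw [h1] at h
  obtain ⟨_, h2⟩ := evo_insert (lexBeats_total he _) hmem t h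
  intro m hm hcon
  apply h2 m hm
  have h3 : evo (fun n x => safeWalk G ((update ω o c) x).2.1 x (n + 1))
      (lexBeats e (update ω o c)) (neutral (update ω o c) o) t = ievo G e ω (neutral ω o) t := by
    have h4 := ievo_neutral_congr (G := G) (e := e) ω o c (ω o) t
    rw [update_eq_self] at h4
    rw [← h4, neutral_update]
    rfl
  rw [h3]
  have h5 : Disc (ievo G e ω (neutral ω o) t) (istate G e ω t) :=
    (disc_car ho).evo (lexBeats_total he _) (ievo_finite hG _) t
  have h6 := h5.spots_subset hcon
  simp only [update_self]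
  exact h6

end Tagged

section Measure

variable {V : Type*} [MeasurableSpace V] [DiscreteMeasurableSpace V] [Countable V]
  [DecidableEq V]

omit [DecidableEq V] in
theorem measurable_safe (G : SimpleGraph V) (x : V) (n : ℕ) (v : V) :
    Measurable fun c : Site V => safeWalk G c.2.1 x n = v :=
  (measurable_safeWalk_eq G x n v).comp
    (measurable_pi_lambda (fun (c : Site V) (_ : V) => c) fun _ => measurable_id)

variable {G : SimpleGraph V} {K : V → PMF V} {Γ : Subgroup (G ≃g G)}

/-- The set of vertices visited by the safe walk at times `1, …, t`. -/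
noncomputable def visited (G : SimpleGraph V) (ζ : ℕ × V → V) (o : V) (t : ℕ) : Finset V :=
  (Finset.range t).image fun m => safeWalk G ζ o (m + 1)

/-- The probability that the car at `o` is unparked at time `t`, in terms of the range of an
independent walk. -/
theorem mul_prob_cars_le (T : IsTriple G K Γ) {e : V → ℕ} (he : Injective e) (p : I) (o : V)
    (t : ℕ) :
    ENNReal.ofReal p * law K p {ω | o ∈ (istate G e ω t).cars} ≤
      ∫⁻ c, law K p {ω | ∀ v ∈ visited G c.2.1 o t, v ∉ (istate G e ω t).spots}
        ∂(siteLaw K p) := by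
  classical
  -- the three events
  set A : Set ((V → Site V) × Site V) := {z | o ∈ (istate G e (update z.1 o z.2) t).cars} with hA
  set C : Set ((V → Site V) × Site V) :=
    {z | ∀ m < t, safeWalk G z.2.2.1 o (m + 1) ∉ (istate G e z.1 t).spots} with hC
  have hcars : MeasurableSet {ω : V → Site V | o ∈ (istate G e ω t).cars} :=
    measurableSet_setOfPred.mpr ((measurable_istate G e t).1 o)
  have hAm : MeasurableSet A :=
    (measurable_update' (X := fun _ : V => Site V) (a := o)) hcars
  have hCm : MeasurableSet C := by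
    have h1 : C = {z | ∀ m, m < t → ∀ w, safeWalk G z.2.2.1 o (m + 1) = w →
        ¬ w ∈ (istate G e z.1 t).spots} := by
      ext z
      simp only [hC, mem_ofPred_eq]
      constructor
      · rintro h m hm w rfl
        exact h m hm
      · intro h m hm
        exact h m hm _ rfl
    rw [h1, measurableSet_setOfPred]
    refine Measurable.forall fun m => measurable_const.imp (Measurable.forall fun w => ?_)
    exact ((measurable_safe G o (m + 1) w).comp measurable_snd).imp
      (((measurable_istate G e t).2 w).comp measurable_fst).not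
  -- the marginal over the tagged car
  set φ : (V → Site V) → ℝ≥0∞ := fun ω => ∫⁻ c, A.indicator 1 (ω, c) ∂(siteLaw K p) with hφ
  have hφm : Measurable φ :=
    (measurable_one.indicator hAm).lintegral_prod_right'
  have hφupd : ∀ ω b, φ (update ω o b) = φ ω := by
    intro ω b
    simp only [hφ]
    refine lintegral_congr fun c => ?_
    have : ((update ω o b, c) ∈ A) ↔ ((ω, c) ∈ A) := by
      simp only [hA, mem_ofPred_eq, update_idem]
    by_cases h : (ω, c) ∈ A
    · rw [indicator_of_mem h, indicator_of_mem (this.mpr h)]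
      rfl
    · rw [indicator_of_notMem h, indicator_of_notMem (fun h' => h (this.mp h'))]
  have hφint : ∫⁻ ω, φ ω ∂(law K p) = law K p {ω | o ∈ (istate G e ω t).cars} := by
    rw [← lintegral_indicator_one hcars]
    unfold law
    rw [lintegral_update (fun _ : V => siteLaw K p) (measurable_one.indicator hcars) o]
    rfl
  -- restrict to the event that `ω o` is a car
  set ψ : (V → Site V) → ℝ≥0∞ := fun ω => {ω : V → Site V | (ω o).1 = true}.indicator 1 ω * φ ω
    with hψ
  have hcarm : MeasurableSet {ω : V → Site V | (ω o).1 = true} :=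
    measurableSet_setOfPred.mpr (measurable_car o true)
  have hψm : Measurable ψ := (measurable_one.indicator hcarm).mul hφm
  have hψint : ∫⁻ ω, ψ ω ∂(law K p) =
      ENNReal.ofReal p * law K p {ω | o ∈ (istate G e ω t).cars} := by
    rw [← hφint]
    unfold law
    rw [lintegral_update (fun _ : V => siteLaw K p) hψm o, ← lintegral_const_mul _ hφm]
    refine lintegral_congr fun ω => ?_
    have h1 : ∀ b : Site V, ψ (update ω o b) = {b : Site V | b.1 = true}.indicator 1 b * φ ω := by
      intro b
      simp only [hψ]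
      rw [hφupd]
      congr 1
      by_cases h : b.1 = true
      · rw [indicator_of_mem (by simpa using h), indicator_of_mem (by simpa using h)]
        rfl
      · rw [indicator_of_notMem (by simpa using h), indicator_of_notMem (by simpa using h)]
    simp_rw [h1]
    have hb : MeasurableSet {b : Site V | b.1 = true} := by
      have h2 : Measurable fun b : Site V => b.1 := measurable_fst
      exact h2 (measurableSet_singleton true)
    rw [lintegral_mul_const _ (measurable_one.indicator hb), lintegral_indicator_one hb]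
    congr 1
    have h3 := (mp_car K p).map_eq
    have h4 : siteLaw K p {b : Site V | b.1 = true} = carLaw p {true} := by
      rw [← h3, Measure.map_apply measurable_fst (measurableSet_singleton _)]
      rfl
    rw [h4]
    simp [carLaw]
  have hle : ∀ ω, ψ ω ≤ ∫⁻ c, C.indicator 1 (ω, c) ∂(siteLaw K p) := by
    intro ω
    simp only [hψ]
    by_cases ho : (ω o).1 = true
    · rw [indicator_of_mem (by exact ho), Pi.one_apply, one_mul]
      refine lintegral_mono fun c => ?_
      by_cases hz : (ω, c) ∈ A
      · have hc : c.1 = true := by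
          have h1 : o ∈ (initial (update ω o c)).cars :=
            evo_cars_anti _ _ _ (Nat.zero_le t) hz
          simpa [initial] using h1
        have hzC : (ω, c) ∈ C := tagged T.locallyFinite he ω o c hc ho t hz
        rw [indicator_of_mem hz, indicator_of_mem hzC]
      · rw [indicator_of_notMem hz]
        exact zero_le
    · rw [indicator_of_notMem (by exact ho), zero_mul]
      exact zero_le
  calc ENNReal.ofReal p * law K p {ω | o ∈ (istate G e ω t).cars}
      = ∫⁻ ω, ψ ω ∂(law K p) := hψint.symm
    _ ≤ ∫⁻ ω, ∫⁻ c, C.indicator 1 (ω, c) ∂(siteLaw K p) ∂(law K p) := lintegral_mono hle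
    _ = ∫⁻ c, ∫⁻ ω, C.indicator 1 (ω, c) ∂(law K p) ∂(siteLaw K p) := by
        rw [lintegral_lintegral_swap]
        exact (measurable_one.indicator hCm).aemeasurable
    _ = ∫⁻ c, law K p {ω | ∀ v ∈ visited G c.2.1 o t, v ∉ (istate G e ω t).spots}
        ∂(siteLaw K p) := by
        refine lintegral_congr fun c => ?_
        have h1 : MeasurableSet {ω : V → Site V | (ω, c) ∈ C} := measurable_prodMk_right hCm
        have h2 : {ω : V → Site V | ∀ v ∈ visited G c.2.1 o t, v ∉ (istate G e ω t).spots} =
            {ω : V → Site V | (ω, c) ∈ C} := by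
          ext ω
          simp only [visited, hC, mem_ofPred_eq, Finset.mem_image, Finset.mem_range]
          constructor
          · intro h m hm
            exact h _ ⟨m, hm, rfl⟩
          · rintro h v ⟨m, hm, rfl⟩
            exact h m hm
        rw [h2, ← lintegral_indicator_one h1]
        rfl

theorem card_rng_le {G : SimpleGraph V} {ζ : ℕ × V → V}
    (hζ : ∀ i : ℕ × V, G.Adj i.2 (ζ i)) (o : V) (t : ℕ) :
    (rng ζ o t).card ≤ (visited G ζ o t).card + 1 := by
  have hpath : ∀ n, safeWalk G ζ o n = path ζ o n := by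
    intro n
    induction n with
    | zero => rfl
    | succ n ih =>
      simp only [safeWalk, path]
      rw [ih, if_pos (hζ (n, path ζ o n))]
  have h1 : rng ζ o t ⊆ insert o (visited G ζ o t) := by
    intro v hv
    simp only [rng, Finset.mem_image, Finset.mem_range] at hv
    obtain ⟨m, hm, rfl⟩ := hv
    rw [Finset.mem_insert]
    rcases m with _ | m
    · exact Or.inl rfl
    · right
      simp only [visited, Finset.mem_image, Finset.mem_range]
      exact ⟨m, by omega, hpath _⟩
  exact (Finset.card_le_card h1).trans (Finset.card_insert_le _ _)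

/-- The weight `exp (- c m)`. -/
noncomputable def wt (c : ℝ) (m : ℕ) : ℝ≥0∞ := ENNReal.ofReal (Real.exp (-(c * m)))

theorem mul_prob_cars_le' (T : IsTriple G K Γ) {e : V → ℕ} (he : Injective e) (p : I)
    (hp : (p : ℝ) < 1 / 2) (o : V) (t : ℕ) :
    ENNReal.ofReal p * law K p {ω | o ∈ (istate G e ω t).cars} ≤
      ENNReal.ofReal (Real.exp ((1 - 2 * (p : ℝ)) ^ 2 / 8)) *
        ∫⁻ ζ, wt ((1 - 2 * (p : ℝ)) ^ 2 / 8) (rng ζ o t).card ∂(walkLaw K) := by
  set c0 : ℝ := (1 - 2 * (p : ℝ)) ^ 2 / 8 with hc0
  have hc0' : 0 ≤ c0 := by positivity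
  refine (mul_prob_cars_le T he p o t).trans ?_
  have hm := measurable_rng (V := V) o t fun S _ => wt c0 S.card
  rw [← lintegral_const_mul _ hm, ← (mp_walk K p).lintegral_comp (hm.const_mul _)]
  refine lintegral_mono_ae ?_
  have hadj : ∀ᵐ ζ ∂(walkLaw K), ∀ i : ℕ × V, G.Adj i.2 (ζ i) :=
    ae_all_iff.mpr fun i => walk_adj_ae T.supported i
  filter_upwards [(mp_walk K p).quasiMeasurePreserving.ae hadj] with c hc
  have h1 := prob_no_spot_le T he p hp (visited G c.2.1 o t) t
  rw [← hc0] at h1
  have h2 : law K p {ω | ∀ v ∈ visited G c.2.1 o t, v ∉ (istate G e ω t).spots} ≤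
      ENNReal.ofReal (Real.exp (-(c0 * (visited G c.2.1 o t).card))) := by
    rw [← ENNReal.ofReal_toReal (measure_ne_top (law K p)
      {ω | ∀ v ∈ visited G c.2.1 o t, v ∉ (istate G e ω t).spots})]
    exact ENNReal.ofReal_le_ofReal h1
  refine h2.trans ?_
  unfold wt
  rw [← ENNReal.ofReal_mul (Real.exp_pos _).le, ← Real.exp_add]
  refine ENNReal.ofReal_le_ofReal (Real.exp_le_exp.mpr ?_)
  have h3 : ((rng c.2.1 o t).card : ℝ) ≤ (visited G c.2.1 o t).card + 1 := by
    exact_mod_cast card_rng_le hc o t
  nlinarith

end Measure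

section Final

variable {V : Type*} [MeasurableSpace V] [DiscreteMeasurableSpace V]
  {G : SimpleGraph V} {K : V → PMF V} {Γ : Subgroup (G ≃g G)}

theorem tsum_wt_lt_top {c κ : ℝ} (hc : 0 < c) (hκ : 0 < κ) :
    ∑' m, wt c m * ENNReal.ofReal ((m : ℝ) ^ 2 / κ) < ⊤ := by
  have h1 : ∀ m : ℕ, wt c m * ENNReal.ofReal ((m : ℝ) ^ 2 / κ) =
      ENNReal.ofReal (κ⁻¹ * ((m : ℝ) ^ 2 * Real.exp (-c * m))) := by
    intro m
    unfold wt
    rw [← ENNReal.ofReal_mul (Real.exp_pos _).le]
    congr 1
    rw [neg_mul]
    field_simp
  simp_rw [h1]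
  have h2 : Summable fun m : ℕ => κ⁻¹ * ((m : ℝ) ^ 2 * Real.exp (-c * m)) :=
    (Real.summable_pow_mul_exp_neg_nat_mul 2 hc).mul_left _
  exact h2.tsum_ofReal_lt_top

/-- **Main theorem.** -/
theorem lintegral_visits_lt_top (T : IsTriple G K Γ) (p : I) (hp : (p : ℝ) < 1 / 2) (v : V) :
    ∫⁻ ω, visits v ω ∂(law K p) < ⊤ := by
  classical
  have : Countable V := T.countable
  obtain ⟨e, he⟩ : ∃ e : V → ℕ, Injective e := Countable.exists_injective_nat V
  rw [lintegral_visits T p v]
  have heq : ∀ n, law K p {ω | v ∈ (state ω n).cars} = law K p {ω | v ∈ (istate G e ω n).cars} := by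
    intro n
    refine measure_congr ?_
    filter_upwards [nice_ae T.supported p] with ω hω
    simp only [eq_iff_iff]
    change v ∈ (state ω n).cars ↔ v ∈ (istate G e ω n).cars
    rw [istate_eq e hω n]
  simp_rw [heq]
  by_cases hp0 : (p : ℝ) = 0
  · -- no cars at all
    have h0 : ∀ n, law K p {ω | v ∈ (istate G e ω n).cars} = 0 := by
      intro n
      refine measure_mono_null (t := {ω | (ω v).1 = true}) (fun ω hω => ?_) ?_
      · exact evo_cars_anti _ _ _ (Nat.zero_le n) hω
      · rw [prob_car, hp0, ENNReal.ofReal_zero]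
    simp [h0]
  · have hppos : 0 < (p : ℝ) := lt_of_le_of_ne p.2.1 (Ne.symm hp0)
    obtain ⟨κ, hκ, hflow⟩ := T.flow
    set c0 : ℝ := (1 - 2 * (p : ℝ)) ^ 2 / 8 with hc0
    have hc0pos : 0 < c0 := by
      have : 0 < 1 - 2 * (p : ℝ) := by linarith
      positivity
    have hbound : ENNReal.ofReal p * ∑' n, law K p {ω | v ∈ (istate G e ω n).cars} ≤
        ENNReal.ofReal (Real.exp c0) * ∑' m, wt c0 m * ENNReal.ofReal ((m : ℝ) ^ 2 / κ) := by
      rw [← ENNReal.tsum_mul_left, ENNReal.tsum_eq_iSup_nat]
      refine iSup_le fun n => ?_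
      calc ∑ t ∈ Finset.range n, ENNReal.ofReal p * law K p {ω | v ∈ (istate G e ω t).cars}
          ≤ ∑ t ∈ Finset.range n, ENNReal.ofReal (Real.exp c0) *
              ∫⁻ ζ, wt c0 (rng ζ v t).card ∂(walkLaw K) :=
            Finset.sum_le_sum fun t _ => mul_prob_cars_le' T he p hp v t
        _ = ENNReal.ofReal (Real.exp c0) * occ K (wt c0) n {v} v := by
            rw [← Finset.mul_sum, sum_lintegral_rng]
        _ ≤ ENNReal.ofReal (Real.exp c0) * ∑' m, wt c0 m * ENNReal.ofReal ((m : ℝ) ^ 2 / κ) := by
            gcongr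
            exact occ_le K hκ T.col_le hflow (wt c0) n {v} v (Finset.mem_singleton_self v)
    have hfin : ENNReal.ofReal p * ∑' n, law K p {ω | v ∈ (istate G e ω n).cars} < ⊤ :=
      hbound.trans_lt (ENNReal.mul_lt_top ENNReal.ofReal_lt_top (tsum_wt_lt_top hc0pos hκ))
    by_contra hcon
    rw [not_lt, top_le_iff] at hcon
    rw [hcon, ENNReal.mul_top (ENNReal.ofReal_pos.mpr hppos).ne'] at hfin
    exact lt_irrefl _ hfin

end Final

end Pool.Agent.Lib.MP_971c94_pr
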