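import Pool.Agent.Lib.MP_971c94_pr.Law

/-!
# The almost sure event without ties, and the lower bound for the density of free spots
-/

open MeasureTheory Set Function
open scoped ENNReal unitInterval

namespace Pool.Agent.Lib.MP_971c94_pr

section Nice

variable {V : Type*}

/-- All instructions point along edges, and there are no ties between priorities. -/
structure Nice (G : SimpleGraph V) (ω : V → Site V) : Prop where
  adj : ∀ x n u, G.Adj u ((ω x).2.1 (n, u))
  prio : ∀ n x y, x ≠ y → (ω x).2.2 n ≠ (ω y).2.2 n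

theorem Nice.near {G : SimpleGraph V} {ω : V → Site V} (h : Nice G ω) (x : V) (n : ℕ) :
    Near G n x (pos ω x n) := by
  induction n with
  | zero => rfl
  | succ n ih => exact ⟨_, ih, Or.inr (h.adj x n _)⟩

theorem Nice.total {G : SimpleGraph V} {ω : V → Site V} (h : Nice G ω) (n : ℕ) :
    Total fun x y => (ω x).2.2 n < (ω y).2.2 n where
  irrefl _ := lt_irrefl _
  trans _ _ _ := lt_trans
  total x y hxy := lt_or_gt_of_ne (h.prio n x y hxy)

/-- The car started at `x` parks at `v` at time `n + 1`. -/
def ParksAt (ω : V → Site V) (n : ℕ) (x v : V) : Prop :=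
  x ∈ (state ω n).cars ∧ pos ω x (n + 1) = v ∧ v ∈ (state ω n).spots ∧
    ∀ y, y ∈ (state ω n).cars → pos ω y (n + 1) = v → y ≠ x → (ω x).2.2 n < (ω y).2.2 n

theorem ParksAt.notMem {ω : V → Site V} {n : ℕ} {x v : V} (h : ParksAt ω n x v) :
    x ∉ (state ω (n + 1)).cars := by
  obtain ⟨h1, h2, h3, h4⟩ := h
  rintro ⟨_, h6⟩
  apply h6
  simp only
  rw [h2]
  exact ⟨h3, fun y hy hyv hne => h4 y hy hyv hne⟩

theorem exists_parksAt {G : SimpleGraph V} (hG : ∀ v, (G.neighborSet v).Finite)
    {ω : V → Site V} (hω : Nice G ω) {v : V} (hv : v ∈ (initial ω).spots) (t : ℕ)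
    (ht : v ∉ (state ω t).spots) : ∃ x, ∃ n < t, ParksAt ω n x v := by
  induction t with
  | zero => exact absurd hv ht
  | succ t ih =>
    by_cases hvt : v ∈ (state ω t).spots
    · have hne : {x | x ∈ (state ω t).cars ∧ pos ω x (t + 1) = v}.Nonempty := by
        by_contra hcon
        rw [not_nonempty_iff_eq_empty, eq_empty_iff_forall_notMem] at hcon
        exact ht ⟨hvt, fun x hx hxv => hcon x ⟨hx, hxv⟩⟩
      have hfin : {x | x ∈ (state ω t).cars ∧ pos ω x (t + 1) = v}.Finite := by
        refine (near_finite_left hG (t + 1) v).subset fun x hx => ?_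
        have := hω.near x (t + 1)
        rw [hx.2] at this
        exact this
      obtain ⟨x, ⟨hx, hxv⟩, hwin⟩ := (hω.total t).exists_winner hfin hne
      exact ⟨x, t, Nat.lt_succ_self t, hx, hxv, hvt, fun y hy hyv hyx => hwin y ⟨hy, hyv⟩ hyx⟩
    · obtain ⟨x, n, hn, h⟩ := ih hvt
      exact ⟨x, n, hn.trans (Nat.lt_succ_self t), h⟩

theorem parksAt_act {G : SimpleGraph V} (φ : G ≃g G) (ω : V → Site V) (n : ℕ) (x v : V) :
    ParksAt (act φ ω) n (φ x) (φ v) ↔ ParksAt ω n x v := by
  unfold ParksAt
  obtain ⟨h1, h2⟩ := state_act φ ω n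
  have hprio : ∀ x, (act φ ω (φ x)).2.2 n = (ω x).2.2 n := fun x => by
    simp only [act, RelIso.inv_apply_self]
  rw [h1 x, pos_act, h2 v, φ.injective.eq_iff]
  refine and_congr_right fun _ => and_congr_right fun _ => and_congr_right fun _ => ?_
  constructor
  · intro h y hy hyv hne
    have := h (φ y) ((h1 y).mpr hy) (by rw [pos_act, hyv]) (fun h' => hne (φ.injective h'))
    rwa [hprio, hprio] at this
  · intro h y' hy hyx hne
    obtain ⟨y, rfl⟩ := φ.surjective y'
    rw [hprio, hprio]
    refine h y ((h1 y).mp hy) ?_ (fun h' => hne (h' ▸ rfl))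
    rw [pos_act] at hyx
    exact φ.injective hyx

variable [MeasurableSpace V] [DiscreteMeasurableSpace V]

theorem measurable_parksAt [Countable V] (n : ℕ) (x v : V) :
    Measurable fun ω : V → Site V => ParksAt ω n x v := by
  unfold ParksAt
  obtain ⟨h1, h2⟩ := measurable_state (V := V) n
  refine (h1 x).and ((measurable_pos_eq x (n + 1) v).and ((h2 v).and ?_))
  refine Measurable.forall fun y => (h1 y).imp ?_
  exact (measurable_pos_eq y (n + 1) v).imp (measurable_const.imp (measurable_prio_lt n x y))

omit [DiscreteMeasurableSpace V] in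
theorem mp_walk (K : V → PMF V) (p : I) :
    MeasurePreserving (fun c : Site V => c.2.1) (siteLaw K p) (walkLaw K) :=
  measurePreserving_fst.comp measurePreserving_snd

omit [DiscreteMeasurableSpace V] in
theorem mp_prio (K : V → PMF V) (p : I) (n : ℕ) :
    MeasurePreserving (fun c : Site V => c.2.2 n) (siteLaw K p) (volume : Measure I) :=
  (measurePreserving_eval_infinitePi (fun _ : ℕ => (volume : Measure I)) n).comp
    (measurePreserving_snd.comp measurePreserving_snd)

omit [DiscreteMeasurableSpace V] in
theorem mp_car (K : V → PMF V) (p : I) :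
    MeasurePreserving (fun c : Site V => c.1) (siteLaw K p) (carLaw p) :=
  measurePreserving_fst

theorem prob_car (K : V → PMF V) (p : I) (x : V) :
    law K p {ω | (ω x).1 = true} = ENNReal.ofReal p := by
  have h := (mp_car K p).comp (measurePreserving_eval_infinitePi (fun _ : V => siteLaw K p) x)
  have h2 : law K p {ω | (ω x).1 = true} = carLaw p {true} := by
    rw [← h.map_eq, Measure.map_apply h.measurable (measurableSet_singleton _)]
    rfl
  rw [h2]
  simp [carLaw]

theorem prob_spot (K : V → PMF V) (p : I) (x : V) :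
    law K p {ω | (ω x).1 = false} = ENNReal.ofReal (1 - p) := by
  have h := (mp_car K p).comp (measurePreserving_eval_infinitePi (fun _ : V => siteLaw K p) x)
  have h2 : law K p {ω | (ω x).1 = false} = carLaw p {false} := by
    rw [← h.map_eq, Measure.map_apply h.measurable (measurableSet_singleton _)]
    rfl
  rw [h2]
  simp [carLaw]

theorem walk_adj_ae {G : SimpleGraph V} {K : V → PMF V} (hK : ∀ u v, ¬ G.Adj u v → K u v = 0)
    (i : ℕ × V) : ∀ᵐ ζ ∂(walkLaw K), G.Adj i.2 (ζ i) := by
  have h := measurePreserving_eval_infinitePi (fun i : ℕ × V => (K i.2).toMeasure) i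
  refine h.quasiMeasurePreserving.ae (p := fun v => G.Adj i.2 v) ?_
  rw [ae_iff, PMF.toMeasure_apply_eq_zero_iff _ (MeasurableSet.of_discrete),
    Set.disjoint_left]
  intro v hv hadj
  exact (PMF.mem_support_iff _ _).mp hv (hK _ _ hadj)

theorem nice_ae [Countable V] {G : SimpleGraph V} {K : V → PMF V}
    (hK : ∀ u v, ¬ G.Adj u v → K u v = 0) (p : I) : ∀ᵐ ω ∂(law K p), Nice G ω := by
  have h1 : ∀ᵐ ω ∂(law K p), ∀ x n u, G.Adj u ((ω x).2.1 (n, u)) := by
    rw [ae_all_iff]
    intro x
    rw [ae_all_iff]
    intro n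
    rw [ae_all_iff]
    intro u
    have h := (mp_walk K p).comp (measurePreserving_eval_infinitePi (fun _ : V => siteLaw K p) x)
    exact h.quasiMeasurePreserving.ae (walk_adj_ae hK (n, u))
  have h2 : ∀ᵐ ω ∂(law K p), ∀ n x y, x ≠ y → (ω x).2.2 n ≠ (ω y).2.2 n := by
    rw [ae_all_iff]
    intro n
    rw [ae_all_iff]
    intro x
    rw [ae_all_iff]
    intro y
    by_cases hxy : x = y
    · exact ae_of_all _ fun ω h => absurd hxy h
    · have h3 : MeasurePreserving (fun ω : V → Site V => (ω x, ω y)) (law K p)
          ((siteLaw K p).prod (siteLaw K p)) :=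
        ⟨by fun_prop, Measure.infinitePi_map_eval_prod (P := fun _ : V => siteLaw K p) hxy⟩
      have h4 := ((mp_prio K p n).prod (mp_prio K p n)).comp h3
      have h5 : ∀ᵐ z ∂((volume : Measure I).prod (volume : Measure I)), z.1 ≠ z.2 := by
        rw [ae_iff]
        have hms : MeasurableSet {z : I × I | ¬ z.1 ≠ z.2} := by
          simp only [ne_eq, not_not]
          exact measurableSet_eq_fun measurable_fst measurable_snd
        rw [Measure.measure_prod_null hms]
        refine ae_of_all _ fun a => ?_
        have : Prod.mk a ⁻¹' {z : I × I | ¬ z.1 ≠ z.2} = {a} := by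
          ext b
          simp [eq_comm]
        simp only [this]
        simp
      have h6 := h4.quasiMeasurePreserving.ae h5
      filter_upwards [h6] with ω hω _
      exact hω
  filter_upwards [h1, h2] with ω h3 h4
  exact ⟨h3, h4⟩

open Classical in
/-- The probability that a vertex is a free spot at time `t` is at least `1 - 2 p`. -/
theorem prob_spots_ge {G : SimpleGraph V} {K : V → PMF V} {Γ : Subgroup (G ≃g G)}
    (T : IsTriple G K Γ) (p : I) (v : V) (t : ℕ) :
    1 - 2 * (p : ℝ) ≤ (law K p).real {ω | v ∈ (state ω t).spots} := by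
  have : Countable V := T.countable
  set E : (V → Site V) → V → V → Prop := fun ω x v => ∃ n < t, ParksAt ω n x v with hE
  have hEm : ∀ x v, Measurable fun ω => E ω x v := fun x v =>
    Measurable.exists fun n => (measurable_const.and (measurable_parksAt n x v))
  have hEinv : ∀ φ : G ≃g G, ∀ ω x v, E (act φ ω) (φ x) (φ v) ↔ E ω x v := by
    intro φ ω x v
    simp only [hE, parksAt_act]
  have hm : ∀ x y, Measurable fun ω : V → Site V => if E ω x y then (1 : ℝ≥0∞) else 0 :=
    fun x y => Measurable.ite (measurableSet_setOfPred.mpr (hEm x y))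
      measurable_const measurable_const
  have hp : ∀ x y, ∫⁻ ω, (if E ω x y then (1 : ℝ≥0∞) else 0) ∂(law K p) =
      law K p {ω | E ω x y} := by
    intro x y
    rw [← lintegral_indicator_one (measurableSet_setOfPred.mpr (hEm x y))]
    refine lintegral_congr fun ω => ?_
    by_cases h : E ω x y
    · rw [if_pos h, indicator_of_mem (by exact h), Pi.one_apply]
    · rw [if_neg h, indicator_of_notMem (by exact h)]
  have hsum : ∑' x, law K p {ω | E ω x v} ≤ ENNReal.ofReal p := by
    rw [← T.mass_transport (fun x y => law K p {ω | E ω x y}) (fun φ hφ x y =>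
      prob_inv T p E hEm hEinv hφ x y) v]
    simp_rw [← hp]
    rw [← lintegral_tsum fun x => (hm v x).aemeasurable]
    rw [← prob_car K p v, ← lintegral_indicator_one (measurableSet_setOfPred.mpr
      (measurable_car v true))]
    refine lintegral_mono fun ω => ?_
    by_cases hex : ∃ x, E ω v x
    · obtain ⟨x, hx⟩ := hex
      rw [tsum_eq_single x]
      · rw [if_pos hx]
        obtain ⟨n, hn, h⟩ := hx
        have hcar : v ∈ (initial ω).cars :=
          evo_cars_anti _ _ _ (Nat.zero_le n) h.1
        simp only [initial, mem_ofPred_eq] at hcar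
        simp [indicator, hcar]
      · intro y hy
        rw [if_neg]
        rintro ⟨m, hm, h'⟩
        obtain ⟨n, hn, h⟩ := hx
        rcases lt_trichotomy m n with hmn | hmn | hmn
        · exact h'.notMem (evo_cars_anti _ _ _ (Nat.succ_le_of_lt hmn) h.1)
        · subst hmn
          exact hy (h'.2.1.symm.trans h.2.1)
        · exact h.notMem (evo_cars_anti _ _ _ (Nat.succ_le_of_lt hmn) h'.1)
    · have h0 : ∀ x, (if E ω v x then (1 : ℝ≥0∞) else 0) = 0 := fun x =>
        if_neg fun h => hex ⟨x, h⟩
      simp_rw [h0, tsum_zero]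
      exact zero_le
  -- filled spots
  have hfill : law K p {ω | (ω v).1 = false ∧ v ∉ (state ω t).spots} ≤ ENNReal.ofReal p := by
    refine le_trans ?_ hsum
    refine le_trans ?_ (measure_iUnion_le _)
    refine measure_mono_ae ?_
    filter_upwards [nice_ae T.supported p] with ω hω h
    obtain ⟨x, n, hn, hx⟩ := exists_parksAt T.locallyFinite hω h.1 t h.2
    exact mem_iUnion.mpr ⟨x, n, hn, hx⟩
  have hle : law K p {ω | (ω v).1 = false} ≤ law K p {ω | v ∈ (state ω t).spots} +
      law K p {ω | (ω v).1 = false ∧ v ∉ (state ω t).spots} := by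
    refine le_trans (measure_mono ?_) (measure_union_le _ _)
    intro ω hω
    by_cases h : v ∈ (state ω t).spots
    · exact Or.inl h
    · exact Or.inr ⟨hω, h⟩
  rw [prob_spot] at hle
  have h1 : ENNReal.ofReal (1 - p) ≤ law K p {ω | v ∈ (state ω t).spots} + ENNReal.ofReal p :=
    hle.trans (by gcongr)
  have h2 := ENNReal.toReal_mono (by finiteness) h1
  rw [ENNReal.toReal_ofReal (by linarith [p.2.2]), ENNReal.toReal_add (by finiteness)
    (by finiteness), ENNReal.toReal_ofReal p.2.1] at h2
  rw [Measure.real]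
  linarith

end Nice

end Pool.Agent.Lib.MP_971c94_pr
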